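import Pool.Agent.H18.Ta.Defs

/-!
# Module Key (TA): the keys realise the ranks

Let `G = bG ℓ = 4 (ℓ+1)^2`, `W = G ^ (ℓ - u)`, `e = ex ℓ u j`, `K s = e * s + kap ℓ s`.
For `s < ℓ` we have `kap ℓ s = kap ℓ (s+1) + G ^ (ℓ - s)` (`sum_range_succ`, as `ℓ - s = (ℓ - (s+1)) + 1`).
Hence `K (s+1) + G ^ (ℓ - s) = K s + e`.

Facts about `e`: `e ≤ 2 W`; for `j = 0`, `e = 2 W > W`; for `j ≥ 1`: `j e < W` and, as `j ≤ ℓ`,
`j e ≥ W - j`, so `e ≥ (W - j)/j`, hence `(j + 1) e ≥ W - j + (W - j)/j > W + 2 W / G` because `G ≥ 4 ℓ²`,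
`W ≥ G`; in particular `e ≥ W / (2 ℓ)` and `e > W / G = G ^ (ℓ - u - 1)`.

* On `[0, u]` the key decreases strictly: for `s < u`, `G ^ (ℓ - s) ≥ G W > 2 W ≥ e`.
* On `[u+1, ℓ-1]` the key increases strictly: for `u + 1 ≤ s`, `s + 1 < ℓ`, `G ^ (ℓ - s) ≤ W / G < e`.
* The keys of the layers `< u` are larger than all keys of the layers `≥ u`:
  `K (u-1) = K u + G W - e`, `K s ≤ K u + e (s - u)` for `s ≥ u`, and `G W > e (ℓ + 1)` by `e ≤ 2 W`.
* `j = 0`: `K (u+1) = K u + e - W > K u`.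
* `j ≥ 1`: `K (u+j) < K u`, as `K (u+j) ≤ K u + j e - W`, and (if `u + j + 1 < ℓ`)
  `K (u+j+1) > K u`, as `K (u+j+1) ≥ K u + (j+1) e - W - 2 W / G` (geometric sum
  `∑_{i=1}^{j} G ^ (ℓ-u-i) ≤ 2 G ^ (ℓ-u-1)`).
These give the order of the keys `u+1 < … < u+j < u < u+j+1 < … < ℓ-1 < u-1 < … < 0`.
-/

namespace Pool.Agent.H18.Ta

open Finset

private theorem Key_G (ℓ : ℕ) : 4 ≤ bG ℓ := by
  unfold bG
  nlinarith [Nat.zero_le ℓ]

private theorem Key_step {ℓ s : ℕ} (hs : s < ℓ) : kap ℓ s = kap ℓ (s + 1) + bG ℓ ^ (ℓ - s) := by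
  unfold kap
  have h : ℓ - s = (ℓ - (s + 1)) + 1 := by omega
  rw [h, Finset.sum_range_succ]

private theorem Key_anti {ℓ s t : ℕ} (h : s ≤ t) : kap ℓ t ≤ kap ℓ s := by
  unfold kap
  refine Finset.sum_le_sum_of_subset ?_
  intro i hi
  rw [Finset.mem_range] at hi ⊢
  omega

private theorem Key_geo (ℓ n : ℕ) : ∑ i ∈ range n, bG ℓ ^ (i + 1) ≤ 2 * bG ℓ ^ n := by
  have hG := Key_G ℓ
  induction n with
  | zero => simp
  | succ n ih =>
    rw [Finset.sum_range_succ]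
    have h1 : 4 * bG ℓ ^ n ≤ bG ℓ ^ (n + 1) := by
      rw [pow_succ, mul_comm (bG ℓ ^ n)]
      exact Nat.mul_le_mul_right _ hG
    omega

private theorem Key_kap {ℓ u : ℕ} (hu : u < ℓ) :
    kap ℓ u ≤ bG ℓ ^ (ℓ - u) + 2 * bG ℓ ^ (ℓ - u - 1) := by
  unfold kap
  have h : ℓ - u = (ℓ - u - 1) + 1 := by omega
  have h2 := Key_geo ℓ (ℓ - u - 1)
  calc ∑ i ∈ range (ℓ - u), bG ℓ ^ (i + 1)
      = ∑ i ∈ range (ℓ - u - 1 + 1), bG ℓ ^ (i + 1) := by rw [← h]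
    _ = ∑ i ∈ range (ℓ - u - 1), bG ℓ ^ (i + 1) + bG ℓ ^ (ℓ - u - 1 + 1) := by
        rw [Finset.sum_range_succ]
    _ ≤ bG ℓ ^ (ℓ - u) + 2 * bG ℓ ^ (ℓ - u - 1) := by rw [← h]; omega

private theorem Key_ex_le (ℓ u j : ℕ) : ex ℓ u j ≤ 2 * bG ℓ ^ (ℓ - u) := by
  unfold ex
  split_ifs with h
  · exact le_rfl
  · exact (Nat.div_le_self _ _).trans ((Nat.sub_le _ _).trans (by omega))

private theorem Key_pow {ℓ u : ℕ} (hu : u < ℓ) :
    bG ℓ ^ (ℓ - u) = bG ℓ * bG ℓ ^ (ℓ - u - 1) := by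
  rw [← pow_succ']
  congr 1
  omega

/-- The main lower bound. -/
private theorem Key_big {ℓ u j : ℕ} (h : u + j < ℓ) :
    bG ℓ ^ (ℓ - u) + 2 * bG ℓ ^ (ℓ - u - 1) < ex ℓ u j * (j + 1) := by
  have hG := Key_G ℓ
  have hp := Key_pow (show u < ℓ by omega)
  set V := bG ℓ ^ (ℓ - u - 1) with hV
  have hV1 : 1 ≤ V := Nat.one_le_pow _ _ (by omega)
  unfold ex
  split_ifs with hj
  · subst hj
    rw [hp]
    nlinarith
  · have hj1 : 1 ≤ j := Nat.one_le_iff_ne_zero.mpr hj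
    set W := bG ℓ ^ (ℓ - u) with hW
    set e := (W - 1) / j with he
    have h1 : W ≤ e * j + j := by
      have h2 := Nat.div_add_mod (W - 1) j
      have h3 := Nat.mod_lt (W - 1) hj1
      rw [← he] at h2
      have h4 : j * e = e * j := mul_comm _ _
      have h5 : 1 ≤ W := by rw [hp]; nlinarith
      omega
    have hjl : j ≤ ℓ := by omega
    have h6 : j * j + j + 2 * j * V < W := by
      rw [hp]
      unfold bG
      nlinarith [Nat.mul_le_mul hjl hjl, Nat.mul_le_mul hjl hV1, Nat.zero_le (ℓ * V)]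
    -- e > j + 2 V
    have h7 : j + 2 * V < e := by
      by_contra hc
      push Not at hc
      have : e * j ≤ (j + 2 * V) * j := Nat.mul_le_mul_right _ hc
      nlinarith
    nlinarith

private theorem Key_e_gt {ℓ u j : ℕ} (h : u + j < ℓ) : bG ℓ ^ (ℓ - u - 1) < ex ℓ u j := by
  have hG := Key_G ℓ
  have h1 := Key_big h
  have hp := Key_pow (show u < ℓ by omega)
  set V := bG ℓ ^ (ℓ - u - 1) with hV
  have hV1 : 1 ≤ V := Nat.one_le_pow _ _ (by omega)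
  by_contra hc
  push Not at hc
  have h2 : ex ℓ u j * (j + 1) ≤ V * (j + 1) := Nat.mul_le_mul_right _ hc
  have h3 : V * (j + 1) ≤ V * bG ℓ := by
    refine Nat.mul_le_mul_left _ ?_
    unfold bG
    nlinarith
  rw [hp] at h1
  nlinarith

private theorem Key_low {ℓ u j : ℕ} (hj : 1 ≤ j) : ex ℓ u j * j < bG ℓ ^ (ℓ - u) := by
  have hG := Key_G ℓ
  unfold ex
  rw [if_neg (by omega)]
  have h1 := Nat.div_mul_le_self (bG ℓ ^ (ℓ - u) - 1) j
  have h2 : 1 ≤ bG ℓ ^ (ℓ - u) := Nat.one_le_pow _ _ (by omega)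
  omega

private theorem Key_dec {ℓ u j s t : ℕ} (h : u + j < ℓ) (hst : s < t) (ht : t ≤ u) :
    ex ℓ u j * t + kap ℓ t < ex ℓ u j * s + kap ℓ s := by
  have hG := Key_G ℓ
  have h1 := Key_step (show s < ℓ by omega)
  have h2 : kap ℓ t ≤ kap ℓ (s + 1) := Key_anti (by omega)
  have h3 := Key_ex_le ℓ u j
  -- ex * (t - s) < G ^ (ℓ - s)
  have h4 : bG ℓ ^ (ℓ - u) * bG ℓ ≤ bG ℓ ^ (ℓ - s) := by
    rw [← pow_succ]
    exact Nat.pow_le_pow_right (by omega) (by omega)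
  obtain ⟨k, hk⟩ : ∃ k, t = s + k := ⟨t - s, by omega⟩
  have h5 : 1 ≤ bG ℓ ^ (ℓ - u) := Nat.one_le_pow _ _ (by omega)
  have h6 : ex ℓ u j * k < bG ℓ ^ (ℓ - s) := by
    refine lt_of_lt_of_le ?_ h4
    have h7 : ex ℓ u j * k ≤ 2 * bG ℓ ^ (ℓ - u) * ℓ := Nat.mul_le_mul h3 (by omega)
    refine lt_of_le_of_lt h7 ?_
    have h8 : 2 * ℓ < bG ℓ := by unfold bG; nlinarith
    calc 2 * bG ℓ ^ (ℓ - u) * ℓ = bG ℓ ^ (ℓ - u) * (2 * ℓ) := by ring
      _ < bG ℓ ^ (ℓ - u) * bG ℓ := Nat.mul_lt_mul_of_pos_left h8 h5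
  rw [hk] at h2 ⊢
  rw [h1, Nat.mul_add]
  omega

private theorem Key_inc {ℓ u j s t : ℕ} (h : u + j < ℓ) (hs : u < s) (hst : s < t) (ht : t < ℓ) :
    ex ℓ u j * s + kap ℓ s < ex ℓ u j * t + kap ℓ t := by
  have hG := Key_G ℓ
  have he := Key_e_gt h
  induction t, hst using Nat.le_induction with
  | base =>
    have h1 := Key_step (show s < ℓ by omega)
    have h2 : bG ℓ ^ (ℓ - s) ≤ bG ℓ ^ (ℓ - u - 1) :=
      Nat.pow_le_pow_right (by omega) (by omega)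
    rw [h1]
    have h3 : ex ℓ u j * (s + 1) = ex ℓ u j * s + ex ℓ u j := by ring
    have h4 : s.succ = s + 1 := rfl
    rw [h4] at *
    omega
  | succ t hst ih =>
    have h0 := ih (by omega)
    have h1 := Key_step (show t < ℓ by omega)
    have h2 : bG ℓ ^ (ℓ - t) ≤ bG ℓ ^ (ℓ - u - 1) :=
      Nat.pow_le_pow_right (by omega) (by omega)
    have h3 : ex ℓ u j * (t + 1) = ex ℓ u j * t + ex ℓ u j := by ring
    omega

private theorem Key_up {ℓ u j s t : ℕ} (h : u + j < ℓ) (hs : u ≤ s) (hsl : s < ℓ) (ht : t < u) :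
    ex ℓ u j * s + kap ℓ s < ex ℓ u j * t + kap ℓ t := by
  have hG := Key_G ℓ
  have h1 := Key_step (show t < ℓ by omega)
  have h2 : kap ℓ s ≤ kap ℓ (t + 1) := Key_anti (by omega)
  have h3 := Key_ex_le ℓ u j
  have h4 : bG ℓ ^ (ℓ - u) * bG ℓ ≤ bG ℓ ^ (ℓ - t) := by
    rw [← pow_succ]
    exact Nat.pow_le_pow_right (by omega) (by omega)
  have h5 : 1 ≤ bG ℓ ^ (ℓ - u) := Nat.one_le_pow _ _ (by omega)
  have h6 : ex ℓ u j * s < bG ℓ ^ (ℓ - t) := by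
    refine lt_of_lt_of_le ?_ h4
    have h7 : ex ℓ u j * s ≤ 2 * bG ℓ ^ (ℓ - u) * ℓ := Nat.mul_le_mul h3 (by omega)
    refine lt_of_le_of_lt h7 ?_
    have h8 : 2 * ℓ < bG ℓ := by unfold bG; nlinarith
    calc 2 * bG ℓ ^ (ℓ - u) * ℓ = bG ℓ ^ (ℓ - u) * (2 * ℓ) := by ring
      _ < bG ℓ ^ (ℓ - u) * bG ℓ := Nat.mul_lt_mul_of_pos_left h8 h5
  rw [h1]
  omega

private theorem Key_mid_lt {ℓ u j s : ℕ} (h : u + j < ℓ) (hs : u < s) (hsj : s ≤ u + j) :
    ex ℓ u j * s + kap ℓ s < ex ℓ u j * u + kap ℓ u := by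
  have h1 := Key_step (show u < ℓ by omega)
  have h2 : kap ℓ s ≤ kap ℓ (u + 1) := Key_anti (by omega)
  have h3 := Key_low (ℓ := ℓ) (u := u) (j := j) (by omega)
  have h4 : ex ℓ u j * s ≤ ex ℓ u j * (u + j) := Nat.mul_le_mul_left _ hsj
  rw [Nat.mul_add] at h4
  rw [h1]
  omega

private theorem Key_mid_gt {ℓ u j t : ℕ} (h : u + j < ℓ) (ht : u + j < t) :
    ex ℓ u j * u + kap ℓ u < ex ℓ u j * t + kap ℓ t := by
  have h1 := Key_kap (show u < ℓ by omega)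
  have h2 := Key_big h
  have h4 : ex ℓ u j * (u + (j + 1)) ≤ ex ℓ u j * t := Nat.mul_le_mul_left _ (by omega)
  rw [Nat.mul_add] at h4
  omega

/-- The keys are ordered as the ranks. -/
theorem key_lt {ℓ u j s t : ℕ} (h : u + j < ℓ) (hs : s < ℓ) (ht : t < ℓ)
    (hr : rk ℓ u j s < rk ℓ u j t) :
    ex ℓ u j * s + kap ℓ s < ex ℓ u j * t + kap ℓ t := by
  unfold rk at hr
  by_cases hsu : s < u
  · rw [if_pos hsu] at hr
    by_cases htu : t < u
    · rw [if_pos htu] at hr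
      exact Key_dec h (by omega) hsu.le
    · exfalso
      rw [if_neg htu] at hr
      split_ifs at hr <;> omega
  · by_cases htu : t < u
    · exact Key_up h (by omega) hs htu
    · rw [if_neg hsu, if_neg htu] at hr
      by_cases hs0 : s = u
      · subst hs0
        rw [if_pos rfl] at hr
        by_cases ht0 : t = s
        · rw [if_pos ht0] at hr; omega
        · rw [if_neg ht0] at hr
          by_cases htj : t ≤ s + j
          · rw [if_pos htj] at hr; omega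
          · exact Key_mid_gt h (by omega)
      · rw [if_neg hs0] at hr
        by_cases ht0 : t = u
        · subst ht0
          rw [if_pos rfl] at hr
          by_cases hsj : s ≤ t + j
          · exact Key_mid_lt h (by omega) hsj
          · rw [if_neg hsj] at hr; omega
        · rw [if_neg ht0] at hr
          refine Key_inc h (by omega) ?_ ht
          split_ifs at hr <;> omega

end Pool.Agent.H18.Ta
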