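import Pool.Agent.H18.Ex.Final

/-!
# Module Geo (TA): from general injectivity to the dimension of the system

Proof.  As in `Pool.Agent.H18.Ex.exists_special` (file `Ex/Final.lean`), with only one coordinate point
`p i₀ = (0 : 0 : 1)` (`Pi.single 2 1`), `w = ![d, d, b]`, `b = d - m i₀`: by `GM_iff` choose positions for the other
points and for `N - L` simple points, `N = (Rg d w).card`, `L = ∑_{i ≠ i₀} ell 2 (m i)`; the forms in
`fatForms 2 d p₀ m` are supported in `Rg d w` (`vanishes_coord_iff`), and evaluation at the simple points is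
injective, so `finrank ≤ N - L`.  By `general_finrank_le` the same bound holds for general points, and
`finrank_fatForms_ge` gives `≥ v` (and `≥ 0`).  Finally `N = ∑_{s ≤ b} (d + 1 - s)` and
`N + binom(m i₀ + 1, 2) = binom(d + 2, 2)` (`m i₀ + b = d`), so `v = N - L` in `ℤ`.
-/

namespace Pool.Agent.H18.Ta

open Finset Pool.Agent.H18.Ex Pool.Agent.H18.Fat

/-- The number of exponents. -/
theorem card_rg (b d : ℕ) (hbd : b ≤ d) :
    (Rg d (![d, d, b] : Fin 3 → ℕ)).card = ∑ s ∈ range (b + 1), (d + 1 - s) := by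
  have h1 : ∑ s ∈ range (b + 1), (d + 1 - s) =
      ((range (b + 1)).sigma fun s => range (d + 1 - s)).card := by
    rw [card_sigma]
    exact sum_congr rfl fun s _ => (card_range _).symm
  rw [h1]
  refine card_nbij' (fun a => ⟨a 2, a 0⟩) (fun x => ![x.2, d - x.1 - x.2, x.1]) ?_ ?_ ?_ ?_
  · intro a ha
    rw [mem_coe, Ex.mem_Rg, Fin.sum_univ_three] at ha
    rw [mem_coe, mem_sigma, mem_range, mem_range]
    have h2 := ha.1 2
    simp only [Matrix.cons_val] at h2
    obtain ⟨_, h3⟩ := ha
    constructor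
    · show a 2 < b + 1
      omega
    · show a 0 < d + 1 - a 2
      omega
  · intro x hx
    rw [mem_coe, mem_sigma, mem_range, mem_range] at hx
    rw [mem_coe, Ex.mem_Rg, Fin.sum_univ_three]
    obtain ⟨h2, h3⟩ := hx
    refine ⟨fun i => ?_, ?_⟩
    · fin_cases i
      · show x.2 ≤ d
        omega
      · show d - x.1 - x.2 ≤ d
        omega
      · show x.1 ≤ b
        omega
    · show x.2 + (d - x.1 - x.2) + x.1 = d
      omega
  · intro a ha
    rw [mem_coe, Ex.mem_Rg, Fin.sum_univ_three] at ha
    obtain ⟨_, h3⟩ := ha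
    funext i
    fin_cases i
    · rfl
    · show d - a 2 - a 0 = a 1
      omega
    · rfl
  · rintro ⟨x, y⟩ _
    rfl

private theorem Geo_count (q b : ℕ) :
    ∑ s ∈ range (b + 1), (q + b + 1 - s) + (q + 1).choose 2 = (q + b + 2).choose 2 := by
  induction b with
  | zero =>
    rw [sum_range_one]
    have h1 : (q + 0 + 2).choose 2 = (q + 1).choose 1 + (q + 1).choose 2 := rfl
    rw [h1, Nat.choose_one_right]
    omega
  | succ b ih =>
    rw [sum_range_succ']
    have h1 : ∑ s ∈ range (b + 1), (q + (b + 1) + 1 - (s + 1)) =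
        ∑ s ∈ range (b + 1), (q + b + 1 - s) := sum_congr rfl fun s _ => by omega
    rw [h1]
    have h2 : (q + (b + 1) + 2).choose 2 = (q + b + 2) + (q + b + 2).choose 2 := by
      have h3 : (q + (b + 1) + 2).choose 2 =
          (q + (b + 1) + 1).choose 1 + (q + (b + 1) + 1).choose 2 := rfl
      rw [h3, Nat.choose_one_right]
      rfl
    rw [h2]
    omega

/-- The special configuration. -/
private theorem Geo_special (k d b : ℕ) (m : Fin k → ℕ) (i₀ : Fin k) (hd : m i₀ + b = d)
    (h : GM (Rg d (![d, d, b] : Fin 3 → ℕ))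
      (((univ.filter fun i => i ≠ i₀).val.map m +
        Multiset.replicate ((Rg d (![d, d, b] : Fin 3 → ℕ)).card -
          ∑ i ∈ univ.filter (fun i => i ≠ i₀), ell 2 (m i)) 1).map Kind.free)) :
    ∃ p₀ : Fin k → Fin (2 + 1) → ℂ, Module.finrank ℂ (fatForms 2 d p₀ m) ≤
      (Rg d (![d, d, b] : Fin 3 → ℕ)).card -
          ∑ i ∈ univ.filter (fun i => i ≠ i₀), ell 2 (m i) := by
  classical
  set w : Fin 3 → ℕ := ![d, d, b] with hw
  set R : ℕ := (Rg d w).card - ∑ i ∈ univ.filter (fun i => i ≠ i₀), ell 2 (m i) with hR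
  let I := {i : Fin k // i ≠ i₀}
  let kk : I ⊕ Fin R → Kind (Fin 3) :=
    Sum.elim (fun i => Kind.free (m i.1)) fun _ => Kind.free 1
  have hkk : (univ : Finset (I ⊕ Fin R)).val.map kk =
      ((univ.filter fun i => i ≠ i₀).val.map m + Multiset.replicate R 1).map Kind.free := by
    have h1 : (univ : Finset (I ⊕ Fin R)).val =
        (univ : Finset I).val.map Sum.inl + (univ : Finset (Fin R)).val.map Sum.inr := rfl
    have h2 : (univ.filter fun i : Fin k => i ≠ i₀).val = (univ : Finset I).val.map Subtype.val := by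
      have h3 : (univ.filter fun i : Fin k => i ≠ i₀) =
          (univ : Finset I).map (Function.Embedding.subtype _) := by
        ext i
        simp only [mem_filter, mem_univ, true_and, mem_map, Function.Embedding.coe_subtype]
        constructor
        · intro hi
          exact ⟨⟨i, hi⟩, rfl⟩
        · rintro ⟨a, rfl⟩
          exact a.2
      rw [h3]
      rfl
    rw [h1, h2, Multiset.map_add, Multiset.map_map, Multiset.map_map, Multiset.map_add,
      Multiset.map_map, Multiset.map_map, Multiset.map_replicate]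
    congr 1
    have h4 : ((univ : Finset (Fin R)).val.map (kk ∘ Sum.inr)) =
        (univ : Finset (Fin R)).val.map (Function.const (Fin R) (Kind.free 1)) := rfl
    rw [h4, Multiset.map_const]
    simp
  have hGI : GI (Rg d w) kk := by
    rw [← GM_iff, hkk]
    exact h
  obtain ⟨pos, hpos⟩ := hGI
  let p₀ : Fin k → Fin (2 + 1) → ℂ := fun i =>
    if hi : i ≠ i₀ then pos (Sum.inl ⟨i, hi⟩) else Pi.single 2 1
  refine ⟨p₀, ?_⟩
  -- the support
  have hsupp : ∀ F ∈ fatForms 2 d p₀ m, ∀ α ∈ F.support, (⇑α : Fin (2 + 1) → ℕ) ∈ Rg d w := by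
    intro F hF α hα
    rw [MvPolynomial.mem_support_iff] at hα
    have hαd : α ∈ mons (2 + 1) d := by
      rw [mem_mons]
      by_contra h
      exact hα (hF.1.coeff_eq_zero h)
    rw [Ex.mem_Rg]
    have hdeg := mem_mons.1 hαd
    rw [Finsupp.degree_eq_sum] at hdeg
    have h3 := hF.2 i₀
    have hp : p₀ i₀ = Pi.single 2 1 := by
      simp only [p₀]
      rw [dif_neg (by simp)]
    rw [hp, ← exists_toPoly hF.1, vanishes_coord_iff] at h3
    have h4 : α 2 + m i₀ ≤ d := h3 ⟨α, hαd⟩ hα
    have hdeg' := hdeg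
    rw [Fin.sum_univ_three] at hdeg'
    refine ⟨fun l => ?_, hdeg⟩
    fin_cases l
    · show α 0 ≤ d
      omega
    · show α 1 ≤ d
      omega
    · show α 2 ≤ b
      omega
  let Ψ : fatForms 2 d p₀ m →ₗ[ℂ] (Fin R → ℂ) :=
    { toFun := fun F j => ∑ a ∈ Rg d w, cf F.1 a * tcr (pos (Sum.inr j)) a 0
      map_add' := fun F G => by
        funext j
        simp only [Submodule.coe_add, cf, MvPolynomial.coeff_add, Pi.add_apply, add_mul,
          sum_add_distrib]
      map_smul' := fun c F => by
        funext j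
        simp only [Submodule.coe_smul, cf, MvPolynomial.coeff_smul, smul_eq_mul, RingHom.id_apply,
          Pi.smul_apply, mul_sum, mul_assoc] }
  have hΨ : Function.Injective Ψ := by
    rw [← LinearMap.ker_eq_bot, LinearMap.ker_eq_bot']
    intro F hF
    have h1 : ∀ i, Sat (Rg d w) (cf F.1) (kk i) (pos i) := by
      rintro (i | j)
      · have h2 := F.2.2 i.1
        have h3 : p₀ i.1 = pos (Sum.inl i) := by
          simp only [p₀]
          rw [dif_pos i.2]
        rw [h3] at h2
        exact sat_of_vanishes (hsupp F.1 F.2) h2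
      · intro b hb
        have hb0 : b = 0 := by
          change ∑ i, b i < 1 at hb
          have h2 : ∑ i, b i = 0 := by omega
          rw [sum_eq_zero_iff] at h2
          funext i
          exact h2 i (mem_univ _)
        subst hb0
        exact congrFun hF j
    have h2 := hpos (cf F.1) h1
    apply Subtype.ext
    change F.1 = 0
    by_contra hne
    obtain ⟨α, hα⟩ := MvPolynomial.ne_zero_iff.1 hne
    have h3 := hsupp F.1 F.2 α (MvPolynomial.mem_support_iff.2 hα)
    have h4 := h2 _ h3
    unfold cf at h4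
    rw [show Finsupp.equivFunOnFinite.symm (⇑α) = α from by ext; rfl] at h4
    exact hα h4
  have := LinearMap.finrank_le_finrank_of_injective hΨ
  rwa [Module.finrank_fintype_fun_eq_card, Fintype.card_fin] at this

/-- The dimension for general points. -/
theorem geo (k d b : ℕ) (m : Fin k → ℕ) (i₀ : Fin k) (hd : m i₀ + b = d)
    (h : GM (Rg d (![d, d, b] : Fin 3 → ℕ))
      (((univ.filter fun i => i ≠ i₀).val.map m +
        Multiset.replicate ((Rg d (![d, d, b] : Fin 3 → ℕ)).card -
          ∑ i ∈ univ.filter (fun i => i ≠ i₀), ell 2 (m i)) 1).map Kind.free)) :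
    ForGeneralPoints 2 k fun p => ImposesMaximalConditions 2 d p m := by
  classical
  obtain ⟨p₀, hp₀⟩ := Geo_special k d b m i₀ hd h
  refine ((general_finrank_le d p₀ m).and (ForGeneralPoints.coord_ne_zero 2 k)).mono ?_
  rintro p ⟨hp1, hp0⟩
  have hge := finrank_fatForms_ge (d := d) (by omega : 1 ≤ 2) (fun i => hp0 i 0) m
  have hN : (Rg d (![d, d, b] : Fin 3 → ℕ)).card + (m i₀ + 1).choose 2 = (d + 2).choose 2 := by
    rw [card_rg b d (by omega), ← hd]
    exact Geo_count (m i₀) b
  have hL : ∑ i, ((m i + 2 - 1).choose 2 : ℤ) =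
      (((m i₀ + 1).choose 2 + ∑ i ∈ univ.filter (fun i => i ≠ i₀), ell 2 (m i) : ℕ) : ℤ) := by
    rw [filter_ne', ← add_sum_erase univ _ (mem_univ i₀)]
    push_cast
    rfl
  unfold ImposesMaximalConditions
  rw [hL] at hge ⊢
  rw [← hN] at hge ⊢
  generalize (Rg d (![d, d, b] : Fin 3 → ℕ)).card = N at *
  generalize ∑ i ∈ univ.filter (fun i => i ≠ i₀), ell 2 (m i) = L at *
  generalize (m i₀ + 1).choose 2 = Q at *
  have h1 : Module.finrank ℂ (fatForms 2 d p m) ≤ N - L := hp1.trans hp₀
  generalize Module.finrank ℂ (fatForms 2 d p m) = f at *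
  push_cast at hge ⊢
  omega

end Pool.Agent.H18.Ta
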