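import Pool.Agent.H18.Ta.Defs
import Pool.Agent.H18.Ex.OnePar

/-!
# Module Core (TA): Lemma U

`F = ∑_{s < ℓ} y^s f_s(x)`, `f_s = ∑_{a < c s} f s a x^a`.  The point `i` is `(x i, y i)`, its multiplicity
is `μ i`.
-/

namespace Pool.Agent.H18.Ta

open Finset

/-- Combinations of binomial coefficients. -/
private theorem Core_comb {R : Type*} [CommRing R] (ℓ h : ℕ) (T : ℕ → R)
    (hT : ∀ γ < h, ∑ s ∈ range ℓ, ((s.choose γ : ℕ) : R) * T s = 0) (S : Finset ℕ) :
    ∀ γ, S.card + γ < h →
      ∑ s ∈ range ℓ, (∏ u ∈ S, ((s : R) - (u : R))) * (((s.choose γ : ℕ) : R) * T s) = 0 := by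
  induction S using Finset.induction_on with
  | empty =>
    intro γ hγ
    simpa using hT γ (by simpa using hγ)
  | insert u S hu ih =>
    intro γ hγ
    rw [card_insert_of_notMem hu] at hγ
    have h1 := ih (γ + 1) (by omega)
    have h2 := ih γ (by omega)
    have h3 : ∀ s ∈ range ℓ,
        (∏ u' ∈ insert u S, ((s : R) - (u' : R))) * (((s.choose γ : ℕ) : R) * T s) =
        ((γ : R) + 1) * ((∏ u' ∈ S, ((s : R) - (u' : R))) * (((s.choose (γ + 1) : ℕ) : R) * T s)) +
        ((γ : R) - u) * ((∏ u' ∈ S, ((s : R) - (u' : R))) * (((s.choose γ : ℕ) : R) * T s)) := by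
      intro s _
      rw [prod_insert hu]
      have h4 : ((s : R) - γ) * ((s.choose γ : ℕ) : R) = ((γ : R) + 1) * ((s.choose (γ + 1) : ℕ) : R) := by
        have h5 := Nat.choose_succ_right_eq s γ
        rcases Nat.lt_or_ge s γ with h6 | h6
        · rw [Nat.choose_eq_zero_of_lt h6, Nat.choose_eq_zero_of_lt (by omega)]
          simp
        · have h7 : ((s.choose (γ + 1) * (γ + 1) : ℕ) : R) = ((s.choose γ * (s - γ) : ℕ) : R) := by
            rw [h5]
          rw [Nat.cast_mul, Nat.cast_mul, Nat.cast_sub h6] at h7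
          push_cast at h7
          linear_combination -h7
      have h5 : ((s : R) - u) * ((s.choose γ : ℕ) : R) =
          ((γ : R) + 1) * ((s.choose (γ + 1) : ℕ) : R) + ((γ : R) - u) * ((s.choose γ : ℕ) : R) := by
        rw [← h4]
        ring
      calc _ = (∏ u' ∈ S, ((s : R) - (u' : R))) * ((((s : R) - u) * ((s.choose γ : ℕ) : R)) * T s) := by
            ring
        _ = _ := by
            rw [h5]
            ring
    rw [sum_congr rfl h3, sum_add_distrib, ← mul_sum, ← mul_sum, h1, h2, mul_zero, mul_zero, add_zero]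

/-- A polynomial of small degree with many zeros vanishes. -/
private theorem Core_zero {κ : Type} [Fintype κ] (x : κ → ℂ) (hx : Function.Injective x) (n : κ → ℕ)
    (N : ℕ) (hN : N ≤ ∑ i, n i) (b : ℕ → ℂ)
    (h : ∀ i, ∀ α < n i, ∑ a ∈ range N, b a * ((a.choose α : ℕ) * x i ^ (a - α)) = 0) :
    ∀ a < N, b a = 0 := by
  classical
  set p : Polynomial ℂ := ∑ a ∈ range N, Polynomial.monomial a (b a) with hp
  have hcoeff : ∀ a < N, p.coeff a = b a := by
    intro a ha
    rw [hp, Polynomial.finsetSum_coeff]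
    simp only [Polynomial.coeff_monomial]
    rw [sum_ite_eq' (range N) a b, if_pos (mem_range.2 ha)]
  have hdeg : p.degree < N := by
    rw [Polynomial.degree_lt_iff_coeff_zero]
    intro k hk
    rw [hp, Polynomial.finsetSum_coeff]
    apply sum_eq_zero
    intro a ha
    rw [Polynomial.coeff_monomial, if_neg]
    rw [mem_range] at ha
    omega
  have hdvd : ∀ i, (Polynomial.X - Polynomial.C (x i)) ^ n i ∣ p := by
    intro i
    rw [Polynomial.X_sub_C_pow_dvd_iff, Polynomial.X_pow_dvd_iff]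
    intro α hα
    have h1 : (p.comp (Polynomial.X + Polynomial.C (x i))).coeff α =
        (Polynomial.taylor (x i) p).coeff α := by
      rw [Polynomial.taylor_apply]
    rw [h1, Polynomial.taylor_coeff, hp, map_sum, Polynomial.eval_finsetSum, ← h i α hα]
    refine sum_congr rfl fun a _ => ?_
    rw [Polynomial.hasseDeriv_monomial, Polynomial.eval_monomial]
    ring
  have hprod : (∏ i, (Polynomial.X - Polynomial.C (x i)) ^ n i) ∣ p := by
    apply Finset.prod_dvd_of_coprime
    · intro i _ j _ hij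
      exact (Polynomial.pairwise_coprime_X_sub_C hx hij).pow
    · intro i _
      exact hdvd i
  have hp0 : p = 0 := by
    by_contra hne
    have h1 := Polynomial.degree_le_of_dvd hprod hne
    have h2 : (∏ i, (Polynomial.X - Polynomial.C (x i)) ^ n i).degree = ((∑ i, n i : ℕ) : WithBot ℕ) := by
      rw [Polynomial.degree_prod]
      simp [Polynomial.degree_pow, Polynomial.degree_X_sub_C]
    rw [h2] at h1
    have h3 : ((∑ i, n i : ℕ) : WithBot ℕ) < N := lt_of_le_of_lt h1 hdeg
    have h4 : ∑ i, n i < N := by exact_mod_cast h3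
    omega
  intro a ha
  rw [← hcoeff a ha, hp0, Polynomial.coeff_zero]

/-- Lemma U. -/
theorem core {κ : Type} [Fintype κ] (ℓ : ℕ) (c : ℕ → ℕ) (μ : κ → ℕ) (rk : κ → ℕ → ℕ) (e : κ → ℕ)
    (kap : ℕ → ℕ) (x : κ → ℂ) (hx : Function.Injective x)
    (hinj : ∀ i, ∀ s < ℓ, ∀ t < ℓ, rk i s = rk i t → s = t)
    (hkey : ∀ i, ∀ s < ℓ, ∀ t < ℓ, rk i s < rk i t → e i * s + kap s < e i * t + kap t)
    (hc : ∀ s < ℓ, c s ≤ ∑ i, (μ i - rk i s)) :
    ∃ y : κ → ℂ, ∀ f : ℕ → ℕ → ℂ,
      (∀ i α γ, α + γ < μ i → ∑ s ∈ range ℓ, ∑ a ∈ range (c s),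
        f s a * (((a.choose α : ℕ) * x i ^ (a - α)) * ((s.choose γ : ℕ) * y i ^ (s - γ))) = 0) →
      ∀ s < ℓ, ∀ a < c s, f s a = 0 := by
  classical
  by_contra hcon
  push Not at hcon
  let A : Finset (Σ _ : ℕ, ℕ) := (range ℓ).sigma fun s => range (c s)
  let ρ : Type := (i : κ) × (Fin (μ i) × Fin (μ i))
  let Mx : ρ → (Σ _ : ℕ, ℕ) → Polynomial ℂ := fun r a =>
    if (r.2.1 : ℕ) + (r.2.2 : ℕ) < μ r.1 then
      Polynomial.C ((a.2.choose (r.2.1 : ℕ) : ℕ) * x r.1 ^ (a.2 - (r.2.1 : ℕ))) *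
        ((((a.1.choose (r.2.2 : ℕ) : ℕ)) : Polynomial ℂ) *
          (Polynomial.X ^ (e r.1 * a.1 + kap a.1) * Polynomial.X))
    else 0
  have hsol : ∀ t : ℂ, ∃ f : (Σ _ : ℕ, ℕ) → ℂ,
      (∀ r, ∑ a ∈ A, f a * (Mx r a).eval t = 0) ∧ ∃ a ∈ A, f a ≠ 0 := by
    intro t
    obtain ⟨f, hf, s₁, hs₁, a₁, ha₁, hne⟩ := hcon fun i => t ^ e i
    have hmem : (⟨s₁, a₁⟩ : Σ _ : ℕ, ℕ) ∈ A := mem_sigma.2 ⟨mem_range.2 hs₁, mem_range.2 ha₁⟩
    by_cases ht : t = 0
    · refine ⟨fun _ => 1, fun r => sum_eq_zero fun a _ => ?_, _, hmem, one_ne_zero⟩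
      subst ht
      simp only [Mx]
      split_ifs
      · simp
      · simp
    · refine ⟨fun a => f a.1 a.2 * (t ^ kap a.1)⁻¹, fun r => ?_, _, hmem, ?_⟩
      · by_cases hr : (r.2.1 : ℕ) + (r.2.2 : ℕ) < μ r.1
        · have h1 := hf r.1 r.2.1 r.2.2 hr
          rw [← sum_sigma (range ℓ) (fun s => range (c s)) (fun a : Σ _ : ℕ, ℕ => f a.1 a.2 *
            (((a.2.choose (r.2.1 : ℕ) : ℕ) * x r.1 ^ (a.2 - (r.2.1 : ℕ))) *
              ((a.1.choose (r.2.2 : ℕ) : ℕ) * (t ^ e r.1) ^ (a.1 - (r.2.2 : ℕ)))))] at h1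
          have h2 : ∑ a ∈ A, f a.1 a.2 * (t ^ kap a.1)⁻¹ * (Mx r a).eval t =
              (t ^ (e r.1 * (r.2.2 : ℕ)) * t) * ∑ a ∈ A, f a.1 a.2 *
                (((a.2.choose (r.2.1 : ℕ) : ℕ) * x r.1 ^ (a.2 - (r.2.1 : ℕ))) *
                  ((a.1.choose (r.2.2 : ℕ) : ℕ) * (t ^ e r.1) ^ (a.1 - (r.2.2 : ℕ)))) := by
            rw [mul_sum]
            refine sum_congr rfl fun a _ => ?_
            simp only [Mx]
            rw [if_pos hr]
            simp only [Polynomial.eval_mul, Polynomial.eval_C, Polynomial.eval_natCast,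
              Polynomial.eval_pow, Polynomial.eval_X]
            rcases Nat.lt_or_ge a.1 (r.2.2 : ℕ) with h3 | h3
            · rw [Nat.choose_eq_zero_of_lt h3]
              simp
            · have h4 : t ^ (e r.1 * a.1 + kap a.1) =
                  t ^ (e r.1 * (r.2.2 : ℕ)) * (t ^ e r.1) ^ (a.1 - (r.2.2 : ℕ)) * t ^ kap a.1 := by
                rw [← pow_mul, ← pow_add, pow_add, ← mul_add, Nat.add_sub_cancel' h3]
              rw [h4]
              have h5 : t ^ kap a.1 ≠ 0 := pow_ne_zero _ ht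
              field_simp
          rw [h2, h1, mul_zero]
        · refine sum_eq_zero fun a _ => ?_
          simp only [Mx]
          rw [if_neg hr, Polynomial.eval_zero, mul_zero]
      · exact mul_ne_zero hne (inv_ne_zero (pow_ne_zero _ ht))
  obtain ⟨F, hF, a₀, ha₀, hne⟩ := Pool.Agent.H18.Ex.exists_poly_solution A Mx hsol
  -- the equations without the factor `X`
  have heq : ∀ i α γ, α + γ < μ i → ∑ s ∈ range ℓ, ((s.choose γ : ℕ) : Polynomial ℂ) *
      (Polynomial.X ^ (e i * s + kap s) * ∑ a ∈ range (c s),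
        F ⟨s, a⟩ * Polynomial.C ((a.choose α : ℕ) * x i ^ (a - α))) = 0 := by
    intro i α γ hαγ
    have h1 := hF ⟨i, ⟨α, by omega⟩, ⟨γ, by omega⟩⟩
    have h2 : Polynomial.X * ∑ s ∈ range ℓ, ((s.choose γ : ℕ) : Polynomial ℂ) *
        (Polynomial.X ^ (e i * s + kap s) * ∑ a ∈ range (c s),
          F ⟨s, a⟩ * Polynomial.C ((a.choose α : ℕ) * x i ^ (a - α))) = 0 := by
      rw [← h1]
      show _ = ∑ a ∈ (range ℓ).sigma fun s => range (c s), _
      rw [sum_sigma, mul_sum]
      refine sum_congr rfl fun s _ => ?_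
      rw [mul_sum, mul_sum, mul_sum]
      refine sum_congr rfl fun a _ => ?_
      simp only [Mx]
      rw [if_pos hαγ]
      ring
    exact (mul_eq_zero.1 h2).resolve_left Polynomial.X_ne_zero
  -- the vanishing at zero
  have hkeyv : ∀ i, ∀ s₀ < ℓ, ∀ α < μ i - rk i s₀,
      ∑ a ∈ range (c s₀), (F ⟨s₀, a⟩).eval 0 * ((a.choose α : ℕ) * x i ^ (a - α)) = 0 := by
    intro i s₀ hs₀ α hα
    set h := μ i - α with hh
    set T : ℕ → Polynomial ℂ := fun s => Polynomial.X ^ (e i * s + kap s) * ∑ a ∈ range (c s),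
        F ⟨s, a⟩ * Polynomial.C ((a.choose α : ℕ) * x i ^ (a - α)) with hT
    set S : Finset ℕ := (range ℓ).filter fun s => s ≠ s₀ ∧ rk i s < h with hS
    have hScard : S.card + 0 < h := by
      have h1 : (insert s₀ S).card ≤ (range h).card := by
        apply card_le_card_of_injOn (rk i)
        · intro s hs
          rw [mem_coe, mem_insert] at hs
          rw [mem_coe, mem_range]
          rcases hs with rfl | hs
          · omega
          · exact (mem_filter.1 hs).2.2
        · intro s hs t ht hst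
          have hlt : ∀ s ∈ insert s₀ S, s < ℓ := by
            intro s hs
            rcases mem_insert.1 hs with rfl | hs
            · exact hs₀
            · exact mem_range.1 (mem_filter.1 hs).1
          exact hinj i s (hlt s hs) t (hlt t ht) hst
      rw [card_insert_of_notMem (by simp [hS]), card_range] at h1
      omega
    have h2 := Core_comb ℓ h T (fun γ hγ => heq i α γ (by omega)) S 0 hScard
    have h3 := congrArg (fun p => Polynomial.coeff p (e i * s₀ + kap s₀)) h2
    simp only [Polynomial.finsetSum_coeff, Polynomial.coeff_zero] at h3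
    rw [sum_eq_single s₀] at h3
    · -- the main term
      have h4 : (∏ u ∈ S, (((s₀ : ℕ) : Polynomial ℂ) - ((u : ℕ) : Polynomial ℂ))) =
          Polynomial.C (∏ u ∈ S, ((s₀ : ℂ) - (u : ℂ))) := by
        rw [map_prod]
        refine prod_congr rfl fun u _ => ?_
        rw [map_sub]
        simp
      rw [h4, Nat.choose_zero_right, Nat.cast_one, one_mul, Polynomial.coeff_C_mul, hT] at h3
      simp only at h3
      rw [Polynomial.coeff_X_pow_mul', if_pos le_rfl, Nat.sub_self] at h3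
      have h5 : (∏ u ∈ S, ((s₀ : ℂ) - (u : ℂ))) ≠ 0 := by
        rw [prod_ne_zero_iff]
        intro u hu
        rw [sub_ne_zero]
        intro h6
        have h7 : s₀ = u := by exact_mod_cast h6
        exact (mem_filter.1 hu).2.1 h7.symm
      have h6 := (mul_eq_zero.1 h3).resolve_left h5
      rw [Polynomial.coeff_zero_eq_eval_zero, Polynomial.eval_finsetSum] at h6
      refine Eq.trans (sum_congr rfl fun a _ => ?_) h6
      rw [Polynomial.eval_mul, Polynomial.eval_C]
    · -- the other terms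
      intro s hs hne
      rw [mem_range] at hs
      by_cases hsS : s ∈ S
      · rw [prod_eq_zero hsS (sub_self _), zero_mul, Polynomial.coeff_zero]
      · have h4 : h ≤ rk i s := by
          by_contra h5
          exact hsS (mem_filter.2 ⟨mem_range.2 hs, hne, by omega⟩)
        have h5 := hkey i s₀ hs₀ s hs (by omega)
        rw [Nat.choose_zero_right, Nat.cast_one, one_mul, hT]
        simp only
        rw [mul_left_comm, Polynomial.coeff_X_pow_mul', if_neg (by omega)]
    · intro hs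
      exact absurd (mem_range.2 hs₀) hs
  -- conclusion
  have hs₀ := mem_range.1 (mem_sigma.1 ha₀).1
  have ha₀' := mem_range.1 (mem_sigma.1 ha₀).2
  apply hne
  have := Core_zero x hx (fun i => μ i - rk i a₀.1) (c a₀.1) (hc a₀.1 hs₀)
    (fun a => (F ⟨a₀.1, a⟩).eval 0) (fun i α hα => hkeyv i a₀.1 hs₀ α hα) a₀.2 ha₀'
  exact this

end Pool.Agent.H18.Ta
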