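import Pool.Agent.H18.Ta.Defs

/-!
# Module RgS (TA): summation over the exponents with bounded last coordinate
-/

namespace Pool.Agent.H18.Ta

open Finset Pool.Agent.H18.Ex

theorem mem_rg3 {b d : ℕ} {a : Fin 3 → ℕ} :
    a ∈ Rg d (![d, d, b] : Fin 3 → ℕ) ↔ a 2 ≤ b ∧ a 0 + a 1 + a 2 = d := by
  rw [mem_Rg, Fin.sum_univ_three]
  constructor
  · rintro ⟨h1, h2⟩
    exact ⟨h1 2, h2⟩
  · rintro ⟨h1, h2⟩
    refine ⟨fun i => ?_, h2⟩
    fin_cases i
    · show a 0 ≤ d
      omega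
    · show a 1 ≤ d
      omega
    · exact h1

theorem rg_sum {M : Type*} [AddCommMonoid M] (b d : ℕ) (hbd : b ≤ d) (g : (Fin 3 → ℕ) → M) :
    ∑ a ∈ Rg d (![d, d, b] : Fin 3 → ℕ), g a =
      ∑ s ∈ range (b + 1), ∑ a ∈ range (d + 1 - s), g ![d - s - a, a, s] := by
  rw [sum_sigma']
  refine sum_bij' (fun a _ => ⟨a 2, a 1⟩) (fun x _ => ![d - x.1 - x.2, x.2, x.1]) ?_ ?_ ?_ ?_ ?_
  · intro a ha
    rw [mem_rg3] at ha
    rw [mem_sigma, mem_range, mem_range]
    constructor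
    · show a 2 < b + 1
      omega
    · show a 1 < d + 1 - a 2
      omega
  · intro x hx
    rw [mem_sigma, mem_range, mem_range] at hx
    rw [mem_rg3]
    refine ⟨?_, ?_⟩
    · show x.1 ≤ b
      omega
    · show d - x.1 - x.2 + x.2 + x.1 = d
      omega
  · intro a ha
    rw [mem_rg3] at ha
    funext i
    fin_cases i
    · show d - a 2 - a 1 = a 0
      omega
    · rfl
    · rfl
  · intro x hx
    rfl
  · intro a ha
    rw [mem_rg3] at ha
    congr 1
    funext i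
    fin_cases i
    · show a 0 = d - a 2 - a 1
      omega
    · rfl
    · rfl

end Pool.Agent.H18.Ta
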