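import Pool.Agent.H18.Ta.Rk
import Pool.Agent.H18.Ta.Key
import Pool.Agent.H18.Ta.Core
import Pool.Agent.H18.Ta.RgS

/-!
# Module Link (TA): from a packing to general injectivity
-/

namespace Pool.Agent.H18.Ta

open Finset Pool.Agent.H18.Ex

theorem gm_of_pack (b d : ℕ) (hbd : b ≤ d) (P : Multiset (ℕ × ℕ × ℕ))
    (hP : ∀ x ∈ P, x.2.1 + x.2.2 < b + 1)
    (hc : ∀ s < b + 1, d + 1 - s ≤ (P.map fun x => ld (b + 1) x.1 x.2.1 x.2.2 s).sum) :
    GM (Rg d (![d, d, b] : Fin 3 → ℕ)) ((P.map Prod.fst).map Kind.free) := by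
  obtain ⟨n, t, rfl⟩ := multi_exists_fin P
  have ht : ∀ i, (t i).2.1 + (t i).2.2 < b + 1 := fun i =>
    hP (t i) (Multiset.mem_map.2 ⟨i, (by rw [Finset.mem_val]; exact Finset.mem_univ _), rfl⟩)
  rw [Multiset.map_map, Multiset.map_map, GM_iff]
  obtain ⟨y, hy⟩ := core (b + 1) (fun s => d + 1 - s) (fun i => (t i).1)
    (fun i => rk (b + 1) (t i).2.1 (t i).2.2) (fun i => ex (b + 1) (t i).2.1 (t i).2.2)
    (kap (b + 1)) (fun i : Fin n => ((i : ℕ) : ℂ))
    (fun i j hij => Fin.ext (Nat.cast_injective (R := ℂ) hij))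
    (fun i s hs u hu he => rk_inj (ht i) hs hu he)
    (fun i s hs u hu hr => key_lt (ht i) hs hu hr)
    (fun s hs => by
      have := hc s hs
      rw [Multiset.map_map] at this
      exact this)
  refine ⟨fun i => ![1, ((i : ℕ) : ℂ), y i], fun f hf => ?_⟩
  have h1 := hy (fun s a => f ![d - s - a, a, s]) (fun i α γ hαγ => by
    have h2 := hf i ![0, α, γ] (by
      show ∑ j : Fin 3, (![0, α, γ] : Fin 3 → ℕ) j < (t i).1
      rw [Fin.sum_univ_three]
      show 0 + α + γ < (t i).1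
      omega)
    rw [rg_sum b d hbd] at h2
    refine Eq.trans (sum_congr rfl fun s _ => sum_congr rfl fun a _ => ?_) h2
    congr 1
    show _ = tcr (![1, ((i : ℕ) : ℂ), y i]) ![d - s - a, a, s] ![0, α, γ]
    unfold tcr
    rw [Fin.prod_univ_three]
    show _ = (((d - s - a).choose 0 : ℕ) : ℂ) * 1 ^ (d - s - a - 0) *
      (((a.choose α : ℕ) : ℂ) * ((i : ℕ) : ℂ) ^ (a - α)) *
      (((s.choose γ : ℕ) : ℂ) * y i ^ (s - γ))
    rw [Nat.choose_zero_right, Nat.cast_one, one_pow, one_mul, one_mul])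
  intro a ha
  rw [mem_rg3] at ha
  have h3 := h1 (a 2) (by omega) (a 1) (by omega)
  have h4 : (![d - a 2 - a 1, a 1, a 2] : Fin 3 → ℕ) = a := by
    funext i
    fin_cases i
    · show d - a 2 - a 1 = a 0
      omega
    · rfl
    · rfl
  rw [h4] at h3
  exact h3

end Pool.Agent.H18.Ta
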