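import Pool.Agent.H18.Ta.Fill
import Pool.Agent.H18.Ta.Link
import Pool.Agent.H18.Ta.Geo
import Pool.Agent.H18.Pr.CremR

/-!
# Module Asm (TA): Theorem A and the plane theorem
-/

namespace Pool.Agent.H18.Ta

open Finset Pool.Agent.H18.Ex Pool.Agent.H18.Fat Pool.Agent.H18.Pr

/-- Every region with bounded last exponent is exact for the multiplicities in question. -/
theorem gm_all (b : ℕ) : ∀ (d : ℕ) (T : Multiset ℕ), dFill b ≤ d → b ≤ d →
    (∀ x ∈ T, x ≤ max 1 b) →
    (∀ x ∈ T, ∀ y ∈ T.erase x, max 1 (b / 2) < x → y ≤ max 1 (b / 2)) →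
    ∑ s ∈ range (b + 1), (d + 1 - s) ≤ (T.map (ell 2)).sum →
    GM (Rg d (![d, d, b] : Fin 3 → ℕ)) (T.map Kind.free) := by
  rcases Nat.eq_zero_or_pos b with rfl | hb
  · intro d T _ _ hT _ hsum
    have h1 : ∀ x ∈ T, x ≤ 1 := by simpa using hT
    -- split the zeros off
    set T₁ := T.filter (fun x => 1 ≤ x) with hT₁
    have h2 : (T.map (ell 2)).sum = T₁.card := by
      have h3 : (T.map (ell 2)).sum = (T₁.map (ell 2)).sum := by
        conv_lhs => rw [← Multiset.filter_add_not (fun x => 1 ≤ x) T]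
        rw [Multiset.map_add, Multiset.sum_add]
        have h4 : ((T.filter (fun x => ¬ 1 ≤ x)).map (ell 2)).sum = 0 := by
          apply Multiset.sum_eq_zero
          intro y hy
          obtain ⟨x, hx, rfl⟩ := Multiset.mem_map.1 hy
          have h5 := (Multiset.mem_filter.1 hx).2
          have h6 : x = 0 := by omega
          subst h6
          rfl
        rw [h4, add_zero]
      rw [h3]
      have h4 : ∀ x ∈ T₁, ell 2 x = 1 := by
        intro x hx
        have h5 := Multiset.mem_filter.1 hx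
        have h6 := h1 x h5.1
        have h7 : x = 1 := by omega
        subst h7
        rfl
      rw [Multiset.map_congr rfl h4]
      simp
    have h3 : (Rg d (![d, d, 0] : Fin 3 → ℕ)).card ≤ T₁.card := by
      rw [card_rg 0 d (Nat.zero_le _), ← h2]
      exact hsum
    have h4 := GM.of_card (Rg d (![d, d, 0] : Fin 3 → ℕ)) T₁ 0
      (fun m hm => (Multiset.mem_filter.1 hm).2) h3
    rw [add_zero] at h4
    exact h4.mono (Multiset.map_le_map (Multiset.filter_le _ _))
  · have hD := fill b hb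
    intro d T hd hbd hT hpair hsum
    -- the largest multiplicity
    have hne : T ≠ 0 := by
      rintro rfl
      rw [Multiset.map_zero, Multiset.sum_zero] at hsum
      have h1 : d + 1 - 0 ≤ ∑ s ∈ range (b + 1), (d + 1 - s) :=
        single_le_sum (f := fun s => d + 1 - s) (fun _ _ => Nat.zero_le _)
          (mem_range.2 (Nat.succ_pos b))
      omega
    obtain ⟨x, hx, hmax⟩ : ∃ x ∈ T, ∀ y ∈ T, y ≤ x := by
      obtain ⟨x, hx⟩ := Multiset.exists_mem_of_ne_zero hne
      have hn : T.toFinset.Nonempty := ⟨x, Multiset.mem_toFinset.2 hx⟩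
      obtain ⟨x, hx, h⟩ := T.toFinset.exists_max_image id hn
      exact ⟨x, Multiset.mem_toFinset.1 hx, fun y hy => h y (Multiset.mem_toFinset.2 hy)⟩
    have hxb : x ≤ b := by
      have := hT x hx
      omega
    have hrest : ∀ y ∈ T.erase x, y ≤ max 1 (b / 2) := by
      intro y hy
      rcases Nat.lt_or_ge (max 1 (b / 2)) x with h | h
      · exact hpair x hx y hy h
      · exact (hmax y (Multiset.mem_of_mem_erase hy)).trans h
    have hT' : x ::ₘ T.erase x = T := Multiset.cons_erase hx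
    have hsum' : ∑ s ∈ range (b + 1), (d + 1 - s) ≤ ell 2 x + ((T.erase x).map (ell 2)).sum := by
      rw [← Multiset.sum_cons, ← Multiset.map_cons, hT']
      exact hsum
    obtain ⟨P, hP1, hP2, hP3⟩ := hD d x (T.erase x) hd hxb hrest hsum'
    rw [hT'] at hP1
    exact (gm_of_pack b d hbd P hP2 hP3).mono (Multiset.map_le_map hP1)

/-- Theorem A: one multiplicity `d - b`, `b` bounded. -/
theorem theoremA (b : ℕ) : ∀ (k d : ℕ) (m : Fin k → ℕ) (i₀ : Fin k), dFill b ≤ d →
    m i₀ + b = d → (∀ i, i ≠ i₀ → m i ≤ b) →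
    (∀ i j, i ≠ i₀ → j ≠ i₀ → i ≠ j → m i + m j ≤ b) →
    ForGeneralPoints 2 k fun p => ImposesMaximalConditions 2 d p m := by
  classical
  intro k d m i₀ hd hb h1 h2
  refine geo k d b m i₀ hb (gm_all b d _ hd (by omega) ?_ ?_ ?_)
  · intro x hx
    rcases Multiset.mem_add.1 hx with hx | hx
    · obtain ⟨i, hi, rfl⟩ := Multiset.mem_map.1 hx
      have h3 := (mem_filter.1 (show i ∈ univ.filter (fun i => i ≠ i₀) from hi)).2
      exact (h1 i h3).trans (le_max_right _ _)
    · rw [Multiset.eq_of_mem_replicate hx]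
      exact le_max_left _ _
  · intro x hx y hy hlt
    set S := (univ.filter fun i => i ≠ i₀).val with hS
    set R := Multiset.replicate ((Rg d (![d, d, b] : Fin 3 → ℕ)).card -
      ∑ i ∈ univ.filter (fun i => i ≠ i₀), ell 2 (m i)) 1 with hR
    -- x comes from the points
    have hxR : x ∉ R := by
      intro h
      rw [Multiset.eq_of_mem_replicate h] at hlt
      have := le_max_left 1 (b / 2)
      omega
    have hxS : x ∈ S.map m := by
      rcases Multiset.mem_add.1 hx with h | h
      · exact h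
      · exact absurd h hxR
    rw [Multiset.erase_add_left_pos _ hxS] at hy
    rcases Multiset.mem_add.1 hy with hy | hy
    · obtain ⟨i, hi, rfl⟩ := Multiset.mem_map.1 hxS
      have hi' := (mem_filter.1 (show i ∈ univ.filter (fun i => i ≠ i₀) from hi)).2
      rw [← Multiset.map_erase_of_mem m S hi] at hy
      obtain ⟨j, hj, rfl⟩ := Multiset.mem_map.1 hy
      have hnd : S.Nodup := (univ.filter fun i => i ≠ i₀).nodup
      have hj1 := (hnd.mem_erase_iff.1 hj)
      have hj' := (mem_filter.1 (show j ∈ univ.filter (fun i => i ≠ i₀) from hj1.2)).2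
      have h3 := h2 i j hi' hj' (fun h => hj1.1 h.symm)
      have h4 := le_max_right 1 (b / 2)
      omega
    · rw [Multiset.eq_of_mem_replicate hy]
      exact le_max_left _ _
  · rw [Multiset.map_add, Multiset.sum_add, Multiset.map_replicate, Multiset.sum_replicate,
      Multiset.map_map]
    have h3 : ((univ.filter fun i => i ≠ i₀).val.map (ell 2 ∘ m)).sum =
        ∑ i ∈ univ.filter (fun i => i ≠ i₀), ell 2 (m i) := rfl
    have h4 : ell 2 1 = 1 := rfl
    rw [h3, h4, smul_eq_mul, mul_one, ← card_rg b d (by omega)]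
    omega

/-- If at most six numbers have all sums of three at most `d`, their sum is at most `2 d`. -/
theorem sum_six {κ : Type} [DecidableEq κ] (m : κ → ℕ) (d : ℕ) (J : Finset κ) (hJ : J.card ≤ 6)
    (hS : ∀ S : Finset κ, S.card ≤ 3 → ∑ i ∈ S, m i ≤ d) : ∑ i ∈ J, m i ≤ 2 * d := by
  rcases Nat.lt_or_ge J.card 3 with h | h
  · have := hS J (by omega)
    omega
  · obtain ⟨S, hSJ, hS3⟩ := exists_subset_card_eq h
    have h1 := hS S (by omega)
    have h2 := hS (J \ S) (by rw [card_sdiff_of_subset hSJ]; omega)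
    rw [← sum_sdiff hSJ]
    omega

/-- If at most eight numbers have all sums of three at most `d`, three times their sum is at most
`8 d`. -/
theorem sum_eight {κ : Type} [DecidableEq κ] (m : κ → ℕ) (d : ℕ) (J : Finset κ) (hJ : J.card ≤ 8)
    (hS : ∀ S : Finset κ, S.card ≤ 3 → ∑ i ∈ S, m i ≤ d) : 3 * ∑ i ∈ J, m i ≤ 8 * d := by
  rcases Nat.lt_or_ge J.card 7 with h | h
  · have := sum_six m d J (by omega) hS
    omega
  · obtain ⟨u, hu, humin⟩ := J.exists_min_image m (card_pos.1 (by omega))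
    have hc1 : (J.erase u).card = J.card - 1 := card_erase_of_mem hu
    obtain ⟨v, hv, hvmin⟩ := (J.erase u).exists_min_image m (card_pos.1 (by omega))
    have hc2 : ((J.erase u).erase v).card = J.card - 1 - 1 := by
      rw [card_erase_of_mem hv, hc1]
    obtain ⟨w, hw⟩ := card_pos.1 (show 0 < ((J.erase u).erase v).card by omega)
    have h1 := sum_six m d ((J.erase u).erase v) (by omega) hS
    have huv : u ≠ v := fun h => (mem_erase.1 hv).1 h.symm
    have hvw : v ≠ w := fun h => (mem_erase.1 hw).1 h.symm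
    have hw' := (mem_erase.1 hw).2
    have huw : u ≠ w := fun h => (mem_erase.1 hw').1 h.symm
    have h2 := hS {u, v, w} (by rw [card_eq_three.2 ⟨u, v, w, huv, huw, hvw, rfl⟩])
    rw [sum_insert (by simp [huv, huw]), sum_pair hvw] at h2
    have h3 := humin v (mem_erase.1 hv).2
    have h4 := hvmin w hw'
    rw [← add_sum_erase J m hu, ← add_sum_erase (J.erase u) m hv]
    omega

/-- The plane theorem before Cremona transformations. -/
theorem plane : ∃ K E : ℕ, ∀ M : ℕ, 1 ≤ M →
    ∀ (k d : ℕ) (m : Fin k → ℕ) (J : Finset (Fin k)),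
    J.card ≤ 9 → (∀ i, i ∉ J → m i ≤ M) → (∀ S : Finset (Fin k), S.card ≤ 3 → ∑ i ∈ S, m i ≤ d) →
    K * M ^ E ≤ d → (J.card = 9 → ∑ i ∈ J, m i + K * M ^ E ≤ 3 * d) →
    ForGeneralPoints 2 k fun p => ImposesMaximalConditions 2 d p m := by
  classical
  obtain ⟨K, E, H⟩ := many_largeR 2 3 le_rfl (by norm_num)
  refine ⟨70 * (K + 1) ^ 18, 18 * E, fun M hM k d m J hJ hsmall hS hd' hcurve' => ?_⟩
  set D₁ := K * M ^ E with hD₁
  have hbound : 3 * D₁ + 67 * (D₁ + 1) ^ 18 ≤ 70 * (K + 1) ^ 18 * M ^ (18 * E) := by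
    have hME : 1 ≤ M ^ E := Nat.one_le_pow _ _ hM
    have h1 : D₁ + 1 ≤ (K + 1) * M ^ E := by
      rw [hD₁, add_mul, one_mul]
      omega
    have h2 : (D₁ + 1) ^ 18 ≤ ((K + 1) * M ^ E) ^ 18 := Nat.pow_le_pow_left h1 18
    have h3 : ((K + 1) * M ^ E) ^ 18 = (K + 1) ^ 18 * M ^ (18 * E) := by
      rw [mul_pow, ← pow_mul, mul_comm E 18]
    have h4 : D₁ ≤ (D₁ + 1) ^ 18 := by
      calc D₁ ≤ D₁ + 1 := Nat.le_succ _
        _ = (D₁ + 1) ^ 1 := (pow_one _).symm
        _ ≤ (D₁ + 1) ^ 18 := Nat.pow_le_pow_right (Nat.succ_pos _) (by norm_num)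
    rw [mul_assoc, ← h3]
    omega
  have hd : 3 * D₁ + 67 * (D₁ + 1) ^ 18 ≤ d := hbound.trans hd'
  have hcurve : J.card = 9 → ∑ i ∈ J, m i + D₁ ≤ 3 * d := fun h => by
    have := hcurve' h
    omega
  have hD₂ : ∀ b < D₁, dFill b ≤ 67 * (D₁ + 1) ^ 18 := fun b hb =>
    (dFill_le b).trans (Nat.mul_le_mul_left _ (Nat.pow_le_pow_left (by omega) _))
  by_cases hlarge : ∃ i, d < m i + D₁
  · obtain ⟨i₀, hi₀⟩ := hlarge
    have h1 : m i₀ ≤ d := by simpa using hS {i₀} (by simp)
    have h2 : dFill (d - m i₀) ≤ 67 * (D₁ + 1) ^ 18 := hD₂ _ (by omega)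
    refine theoremA (d - m i₀) k d m i₀ (by omega) (by omega) (fun i hi => ?_)
      (fun i j hi hj hij => ?_)
    · have h3 := hS {i₀, i} (by rw [card_pair (Ne.symm hi)]; norm_num)
      rw [sum_pair (Ne.symm hi)] at h3
      omega
    · have h3 := hS {i₀, i, j} (by rw [card_eq_three.2 ⟨i₀, i, j, Ne.symm hi, Ne.symm hj, hij, rfl⟩])
      rw [sum_insert (by simp [Ne.symm hi, Ne.symm hj]), sum_pair hij] at h3
      omega
  · push Not at hlarge
    refine H M hM k d m J (by norm_num; omega) hsmall (fun S _ hS3 => ?_) (by omega)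
      (fun i _ => hlarge i) ?_
    · have := hS S hS3
      simpa using this
    · rcases Nat.lt_or_ge J.card 9 with h9 | h9
      · -- at most eight points: any three have sum at most d
        have h8 := sum_eight m d J (by omega) hS
        norm_num
        omega
      · have := hcurve (by omega)
        norm_num
        omega

end Pool.Agent.H18.Ta
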