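import Pool.Agent.H18.Ex.Multi

/-!
# Project TA (MP_1dafdd_ag): definitions

There are `ℓ` layers `s = 0, …, ℓ - 1`.  A *cell* is a pair `(u, j)` with `u + j < ℓ`.  A point in the
cell `(u, j)` orders the layers as follows (the rank `rk ℓ u j s` is the position of the layer `s`):
`u+1, …, u+j, u, u+j+1, …, ℓ-1, u-1, u-2, …, 0`.  A point of multiplicity `μ` loads the layer of rank `k`
by `μ - k` (truncated subtraction).
-/

namespace Pool.Agent.H18.Ta

open Finset Pool.Agent.H18.Ex

/-- The rank of the layer `s` for a point in the cell `(u, j)`. -/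
def rk (ℓ u j s : ℕ) : ℕ :=
  if s < u then ℓ - 1 - s else if s = u then j else if s ≤ u + j then s - u - 1 else s - u

/-- The load of the layer `s` by a point of multiplicity `μ` in the cell `(u, j)`. -/
def ld (ℓ μ u j s : ℕ) : ℕ := μ - rk ℓ u j s

/-- The base of the exponents. -/
def bG (ℓ : ℕ) : ℕ := 4 * (ℓ + 1) ^ 2

/-- The common part of the keys. -/
def kap (ℓ s : ℕ) : ℕ := ∑ i ∈ range (ℓ - s), bG ℓ ^ (i + 1)

/-- The exponent of a point in the cell `(u, j)`. -/
def ex (ℓ u j : ℕ) : ℕ := if j = 0 then 2 * bG ℓ ^ (ℓ - u) else (bG ℓ ^ (ℓ - u) - 1) / j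

end Pool.Agent.H18.Ta
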