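import Pool.Agent.H18.Ta.PackMix

/-!
# Module Fill (TA): filling the layers of a system

Proof.  `ℓ = b + 1`, `h = max 1 (b / 2)`, so `2 h ≤ ℓ` (`b ≥ 1`); `c s = d + 1 - s` varies by at most `b`.
Remove the zeros from `G`.  The point `m₀` (if `m₀ ≥ 1`) goes to the cell `(0, 0)` and loads the layer `s` by
`m₀ - s` (`rk (b+1) 0 0 s = s`).  Let `c' s = d + 1 - s - (m₀ - s)`, still large with variation at most `2 b`, and
`∑ c' ≤ ∑_{m ∈ G} ell 2 m` (as `∑ (m₀ - s) = ell 2 m₀`, `m₀ ≤ b < ℓ`).  Induction on `G` (or: take a sub-multiset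
`G₁ ≤ G` which is maximal with `∑_{G₁} ell 2 ≤ ∑ c'`) gives `G₁ ≤ G` with either `∑_{G₁} ell 2 = ∑ c'` or
`∑_{G₁} ell 2 < ∑ c' < ∑_{G₁} ell 2 + ell 2 m'` with `m' ∈ G - G₁`.  In the second case put `m'` in the cell
`(0, 0)`, choose natural numbers `v s ≤ m' - s` with sum `∑ c' - ∑_{G₁} ell 2` and replace `c'` by `c' - v`.  Now
apply `pack_mix` (for `(b + 1, h, 3 b)`) to `G₁`.
-/

namespace Pool.Agent.H18.Ta

open Finset Pool.Agent.H18.Ex

private lemma Fill_ld (l μ s : ℕ) : ld l μ 0 0 s = μ - s := by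
  unfold ld rk
  by_cases h : s = 0
  · subst h
    simp
  · have h1 : ¬ s ≤ 0 + 0 := by omega
    rw [if_neg (by omega), if_neg h, if_neg h1, Nat.sub_zero]

private lemma Fill_split (f : ℕ → ℕ) (n : ℕ) : ∀ R : ℕ, R ≤ ∑ s ∈ range n, f s →
    ∃ v : ℕ → ℕ, (∀ s, v s ≤ f s) ∧ ∑ s ∈ range n, v s = R := by
  induction n with
  | zero =>
    intro R hR
    refine ⟨fun _ => 0, fun _ => Nat.zero_le _, ?_⟩
    simp at hR
    simp [hR]
  | succ n ih =>
    intro R hR
    rw [sum_range_succ] at hR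
    rcases Nat.lt_or_ge (∑ s ∈ range n, f s) R with h | h
    · refine ⟨fun s => if s < n then f s else if s = n then R - ∑ s ∈ range n, f s else 0,
        fun s => ?_, ?_⟩
      · by_cases h1 : s < n
        · simp [h1]
        · by_cases h2 : s = n
          · subst h2
            simp only [lt_irrefl, if_false, if_true]
            omega
          · simp [h1, h2]
      · rw [sum_range_succ]
        have h3 : ∑ s ∈ range n, (if s < n then f s else
            if s = n then R - ∑ s ∈ range n, f s else 0) = ∑ s ∈ range n, f s :=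
          sum_congr rfl fun s hs => if_pos (mem_range.1 hs)
        rw [h3]
        simp only [lt_irrefl, if_false, if_true]
        omega
    · obtain ⟨v, hv1, hv2⟩ := ih R h
      refine ⟨fun s => if s < n then v s else 0, fun s => ?_, ?_⟩
      · by_cases h1 : s < n
        · simp [h1, hv1 s]
        · simp [h1]
      · rw [sum_range_succ]
        have h3 : ∑ s ∈ range n, (if s < n then v s else 0) = ∑ s ∈ range n, v s :=
          sum_congr rfl fun s hs => if_pos (mem_range.1 hs)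
        rw [h3, hv2]
        simp

private lemma Fill_sub (f : ℕ → ℕ) (G : Multiset ℕ) : ∀ T : ℕ, T ≤ (G.map f).sum →
    ∃ G₁ : Multiset ℕ, G₁ ≤ G ∧ ((G₁.map f).sum = T ∨
      ∃ m', m' ::ₘ G₁ ≤ G ∧ (G₁.map f).sum < T ∧ T < (G₁.map f).sum + f m') := by
  induction G using Multiset.induction_on with
  | empty =>
    intro T hT
    refine ⟨0, le_rfl, Or.inl ?_⟩
    simp at hT
    simp [hT]
  | cons a G ih =>
    intro T hT
    rw [Multiset.map_cons, Multiset.sum_cons] at hT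
    rcases Nat.lt_or_ge (G.map f).sum T with h | h
    · rcases Nat.lt_or_ge T ((G.map f).sum + f a) with h1 | h1
      · exact ⟨G, Multiset.le_cons_self _ _, Or.inr ⟨a, le_rfl, h, h1⟩⟩
      · refine ⟨a ::ₘ G, le_rfl, Or.inl ?_⟩
        rw [Multiset.map_cons, Multiset.sum_cons]
        omega
    · obtain ⟨G₁, h1, h2⟩ := ih T h
      refine ⟨G₁, h1.trans (Multiset.le_cons_self _ _), ?_⟩
      rcases h2 with h2 | ⟨m', h3, h4, h5⟩
      · exact Or.inl h2
      · exact Or.inr ⟨m', h3.trans (Multiset.le_cons_self _ _), h4, h5⟩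

private lemma Fill_ell0 : ell 2 0 = 0 := by decide

private lemma Fill_filter (G : Multiset ℕ) :
    ((G.filter fun m => 1 ≤ m).map (ell 2)).sum = (G.map (ell 2)).sum := by
  induction G using Multiset.induction_on with
  | empty => simp
  | cons a G ih =>
    by_cases h : 1 ≤ a
    · rw [Multiset.filter_cons_of_pos _ h, Multiset.map_cons, Multiset.sum_cons, Multiset.map_cons,
        Multiset.sum_cons, ih]
    · have h0 : a = 0 := by omega
      rw [Multiset.filter_cons_of_neg _ h, Multiset.map_cons, Multiset.sum_cons, ih, h0,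
        Fill_ell0, zero_add]

/-- The bound in `fill`. -/
def dFill (b : ℕ) : ℕ := nMix (b + 1) (max 1 (b / 2)) (3 * b) + 3 * b

/-- Filling all layers. -/
theorem fill (b : ℕ) (hb : 1 ≤ b) : ∀ (d m₀ : ℕ) (G : Multiset ℕ), dFill b ≤ d → m₀ ≤ b →
    (∀ m ∈ G, m ≤ max 1 (b / 2)) →
    ∑ s ∈ range (b + 1), (d + 1 - s) ≤ ell 2 m₀ + (G.map (ell 2)).sum →
    ∃ P : Multiset (ℕ × ℕ × ℕ), P.map Prod.fst ≤ m₀ ::ₘ G ∧ (∀ x ∈ P, x.2.1 + x.2.2 < b + 1) ∧
      ∀ s < b + 1, d + 1 - s ≤ (P.map fun x => ld (b + 1) x.1 x.2.1 x.2.2 s).sum := by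
  have hh : 2 * max 1 (b / 2) ≤ b + 1 := by omega
  have hhb : max 1 (b / 2) ≤ b := by omega
  have hN := pack_mix (b + 1) (max 1 (b / 2)) (3 * b) (le_max_left _ _) hh
  intro d m₀ G hd hm₀ hG hsum
  have hdF : dFill b = nMix (b + 1) (max 1 (b / 2)) (3 * b) + 3 * b := rfl
  rw [hdF] at hd
  set N := nMix (b + 1) (max 1 (b / 2)) (3 * b) with hNdef
  have hell : ∀ m, m ≤ b → ∑ s ∈ range (b + 1), (m - s) = ell 2 m := by
    intro m hm
    rw [← sum_ld (ℓ := b + 1) (μ := m) (u := 0) (j := 0) (by omega) (by omega)]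
    exact sum_congr rfl fun s _ => (Fill_ld _ _ _).symm
  set c' : ℕ → ℕ := fun s => d + 1 - s - (m₀ - s) with hc'
  have hc1 : ∀ s < b + 1, c' s + (m₀ - s) = d + 1 - s := by
    intro s hs
    simp only [hc']
    omega
  have hT : ∑ s ∈ range (b + 1), c' s + ell 2 m₀ = ∑ s ∈ range (b + 1), (d + 1 - s) := by
    rw [← hell m₀ hm₀, ← sum_add_distrib]
    exact sum_congr rfl fun s hs => hc1 s (mem_range.1 hs)
  have key : ∀ (v : ℕ → ℕ) (G₁ : Multiset ℕ), (∀ s, v s ≤ b) →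
      (∀ m ∈ G₁, m ≤ max 1 (b / 2)) →
      ∑ s ∈ range (b + 1), v s + (G₁.map (ell 2)).sum = ∑ s ∈ range (b + 1), c' s →
      ∃ P : Multiset (ℕ × ℕ × ℕ), P.map Prod.fst ≤ G₁ ∧ (∀ x ∈ P, x.2.1 + x.2.2 < b + 1) ∧
        ∀ s < b + 1, (P.map fun x => ld (b + 1) x.1 x.2.1 x.2.2 s).sum = c' s - v s := by
    intro v G₁ hv hG₁ hs₁
    have hvc : ∀ s < b + 1, v s ≤ c' s := by
      intro s hs
      have h1 := hv s
      simp only [hc']
      omega
    obtain ⟨P, hP1, hP2, hP3⟩ := hN (fun s => c' s - v s) (G₁.filter fun m => 1 ≤ m)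
      (fun m hm => by
        rw [Multiset.mem_filter] at hm
        exact ⟨hm.2, hG₁ m hm.1⟩)
      (fun s hs => by
        have h1 := hv s
        simp only [hc']
        omega)
      (fun s hs t ht => by
        have h1 := hv s
        have h2 := hv t
        simp only [hc']
        omega)
      (by
        rw [Fill_filter]
        have h1 : ∑ s ∈ range (b + 1), (c' s - v s) + ∑ s ∈ range (b + 1), v s =
            ∑ s ∈ range (b + 1), c' s := by
          rw [← sum_add_distrib]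
          exact sum_congr rfl fun s hs => Nat.sub_add_cancel (hvc s (mem_range.1 hs))
        omega)
    exact ⟨P, hP1.le.trans (Multiset.filter_le _ _), hP2, hP3⟩
  obtain ⟨G₁, hG1, hcase⟩ := Fill_sub (ell 2) G (∑ s ∈ range (b + 1), c' s) (by omega)
  have hG1m : ∀ m ∈ G₁, m ≤ max 1 (b / 2) := fun m hm => hG m (Multiset.mem_of_le hG1 hm)
  rcases hcase with hcase | ⟨m', h3, h4, h5⟩
  · obtain ⟨P, hP1, hP2, hP3⟩ := key (fun _ => 0) G₁ (fun _ => Nat.zero_le _) hG1m (by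
      simp [hcase])
    refine ⟨(m₀, 0, 0) ::ₘ P, ?_, ?_, ?_⟩
    · rw [Multiset.map_cons]
      exact Multiset.cons_le_cons _ (hP1.trans hG1)
    · intro x hx
      rcases Multiset.mem_cons.1 hx with rfl | hx
      · exact Nat.succ_pos b
      · exact hP2 x hx
    · intro s hs
      rw [Multiset.map_cons, Multiset.sum_cons, hP3 s hs]
      show d + 1 - s ≤ ld (b + 1) m₀ 0 0 s + (c' s - 0)
      rw [Fill_ld, Nat.sub_zero]
      have := hc1 s hs
      omega
  · have hm' : m' ≤ max 1 (b / 2) :=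
      hG m' (Multiset.mem_of_le h3 (Multiset.mem_cons_self _ _))
    have hm'b : m' ≤ b := hm'.trans hhb
    obtain ⟨v, hv1, hv2⟩ := Fill_split (fun s => m' - s) (b + 1)
      (∑ s ∈ range (b + 1), c' s - (G₁.map (ell 2)).sum) (by
        show _ ≤ ∑ s ∈ range (b + 1), (m' - s)
        rw [hell m' hm'b]
        omega)
    obtain ⟨P, hP1, hP2, hP3⟩ := key v G₁ (fun s => by
      have h6 : v s ≤ m' - s := hv1 s
      omega) hG1m (by omega)
    refine ⟨(m₀, 0, 0) ::ₘ (m', 0, 0) ::ₘ P, ?_, ?_, ?_⟩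
    · rw [Multiset.map_cons, Multiset.map_cons]
      exact Multiset.cons_le_cons _ ((Multiset.cons_le_cons _ hP1).trans h3)
    · intro x hx
      rcases Multiset.mem_cons.1 hx with rfl | hx
      · exact Nat.succ_pos b
      · rcases Multiset.mem_cons.1 hx with rfl | hx
        · exact Nat.succ_pos b
        · exact hP2 x hx
    · intro s hs
      rw [Multiset.map_cons, Multiset.sum_cons, Multiset.map_cons, Multiset.sum_cons, hP3 s hs]
      show d + 1 - s ≤ ld (b + 1) m₀ 0 0 s + (ld (b + 1) m' 0 0 s + (c' s - v s))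
      rw [Fill_ld, Fill_ld]
      have h6 := hc1 s hs
      have h7 : v s ≤ m' - s := hv1 s
      omega

/-- The bound is polynomial. -/
theorem dFill_le (b : ℕ) : dFill b ≤ 67 * (b + 1) ^ 18 := by
  unfold dFill
  set ℓ := b + 1 with hℓ
  have h1 : 1 ≤ ℓ := by omega
  have hh : max 1 (b / 2) ≤ ℓ := by omega
  set h := max 1 (b / 2) with hhd
  have hp : ∀ i j : ℕ, i ≤ j → ℓ ^ i ≤ ℓ ^ j := fun i j hij => Nat.pow_le_pow_right h1 hij
  have e1 : nOne ℓ 1 ≤ 8 * ℓ ^ 8 := by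
    unfold nOne
    have := hp 0 2 (by norm_num)
    calc 4 * ℓ ^ 6 * (1 + ℓ ^ 2) ≤ 4 * ℓ ^ 6 * (2 * ℓ ^ 2) := by
          apply Nat.mul_le_mul_left
          rw [pow_zero] at this
          omega
      _ = 8 * ℓ ^ 8 := by ring
  have e2 : bMix ℓ h ≤ 9 * ℓ ^ 10 := by
    unfold bMix
    have := hp 0 9 (by norm_num)
    calc h * (1 + ℓ * nOne ℓ 1) ≤ ℓ * (1 + ℓ * (8 * ℓ ^ 8)) := by gcongr
      _ = ℓ * (1 + 8 * ℓ ^ 9) := by ring
      _ ≤ ℓ * (9 * ℓ ^ 9) := by
          apply Nat.mul_le_mul_left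
          rw [pow_zero] at this
          omega
      _ = 9 * ℓ ^ 10 := by ring
  have e3 : 3 * b ≤ 3 * ℓ ^ 10 := by
    have := hp 1 10 (by norm_num)
    rw [pow_one] at this
    omega
  have e4 : nOne ℓ (3 * b + bMix ℓ h) ≤ 52 * ℓ ^ 16 := by
    unfold nOne
    have := hp 2 10 (by norm_num)
    calc 4 * ℓ ^ 6 * (3 * b + bMix ℓ h + ℓ ^ 2) ≤ 4 * ℓ ^ 6 * (13 * ℓ ^ 10) := by
          apply Nat.mul_le_mul_left
          omega
      _ = 52 * ℓ ^ 16 := by ring
  have e5 : nMix ℓ h (3 * b) ≤ 64 * ℓ ^ 18 := by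
    unfold nMix
    have h2 := hp 11 18 (by norm_num)
    calc h * (h * nOne ℓ (3 * b + bMix ℓ h) + 3 * b + bMix ℓ h)
        ≤ ℓ * (ℓ * (52 * ℓ ^ 16) + 3 * ℓ ^ 10 + 9 * ℓ ^ 10) := by gcongr
      _ = 52 * ℓ ^ 18 + 12 * ℓ ^ 11 := by ring
      _ ≤ 64 * ℓ ^ 18 := by omega
  have e6 := hp 10 18 (by norm_num)
  omega

end Pool.Agent.H18.Ta
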