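import Pool.Agent.H18.Ta.Rk

/-!
# Module Greedy (TA): the greedy filling, with possibly negative numbers of points

`a u` points in the cell `(u, 0)` and one point in the cell `(u, j u)`, for `u < ℓ - 1`, and the rest,
`n - ∑ (a u + 1)` points, in the cell `(ℓ - 1, 0)`; all layers `s < ℓ - 1` are filled exactly.
-/

namespace Pool.Agent.H18.Ta

open Finset

private theorem Greedy_lt {ℓ μ u j s : ℕ} (h : s < u) : ld ℓ μ u j s = μ - (ℓ - 1 - s) := by
  unfold ld rk
  rw [if_pos h]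

private theorem Greedy_self {ℓ μ u j : ℕ} : ld ℓ μ u j u = μ - j := by
  unfold ld rk
  simp

/-- The choice, layer by layer. -/
private theorem Greedy_aux (μ ℓ : ℕ) (hμ : 1 ≤ μ) (hℓ : μ < ℓ) (c : ℕ → ℤ) (n : ℤ) :
    ∀ k, k ≤ ℓ - 1 → ∃ (a : ℕ → ℤ) (j : ℕ → ℕ), ∀ s < k, s + j s < ℓ ∧
      c s = ∑ u ∈ range s, (a u * (ld ℓ μ u 0 s : ℤ) + (ld ℓ μ u (j u) s : ℤ)) +
        (a s * μ + ((μ - j s : ℕ) : ℤ)) +
        (n - ∑ u ∈ range (s + 1), (a u + 1)) * ((μ - (ℓ - 1 - s) : ℕ) : ℤ) := by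
  intro k
  induction k with
  | zero =>
    intro _
    exact ⟨fun _ => 0, fun _ => 0, fun s hs => absurd hs (Nat.not_lt_zero s)⟩
  | succ k ih =>
    intro hk
    obtain ⟨a, j, haj⟩ := ih (by omega)
    set τ : ℕ := μ - (ℓ - 1 - k) with hτ
    have hτμ : τ < μ := by omega
    set D : ℕ := μ - τ with hD
    have hD1 : 1 ≤ D := by omega
    set R : ℤ := c k - ∑ u ∈ range k, (a u * (ld ℓ μ u 0 k : ℤ) + (ld ℓ μ u (j u) k : ℤ)) -
      (n - ∑ u ∈ range k, (a u + 1)) * (τ : ℤ) with hR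
    have hDpos : (0 : ℤ) < D := by exact_mod_cast hD1
    have hmod0 := Int.emod_nonneg R hDpos.ne'
    have hmod1 := Int.emod_lt_of_pos R hDpos
    obtain ⟨ρ, hρ⟩ : ∃ ρ : ℕ, (ρ : ℤ) = R % D := ⟨(R % D).toNat, Int.toNat_of_nonneg hmod0⟩
    have hρD : ρ < D := by
      have : (ρ : ℤ) < D := by rw [hρ]; exact hmod1
      exact_mod_cast this
    refine ⟨Function.update a k (R / D), Function.update j k (D - ρ), fun s hs => ?_⟩
    rcases Nat.lt_succ_iff_lt_or_eq.1 hs with hs | rfl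
    · -- old layers
      have h1 := haj s hs
      have hne : s ≠ k := by omega
      rw [Function.update_of_ne hne, Function.update_of_ne hne]
      refine ⟨h1.1, ?_⟩
      have h3 : ∑ u ∈ range s, (Function.update a k (R / D) u * (ld ℓ μ u 0 s : ℤ) +
          (ld ℓ μ u (Function.update j k (D - ρ) u) s : ℤ)) =
          ∑ u ∈ range s, (a u * (ld ℓ μ u 0 s : ℤ) + (ld ℓ μ u (j u) s : ℤ)) := by
        refine sum_congr rfl fun u hu => ?_
        rw [mem_range] at hu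
        rw [Function.update_of_ne (by omega), Function.update_of_ne (by omega)]
      have h4 : ∑ u ∈ range (s + 1), (Function.update a k (R / D) u + 1) =
          ∑ u ∈ range (s + 1), (a u + 1) := by
        refine sum_congr rfl fun u hu => ?_
        rw [mem_range] at hu
        rw [Function.update_of_ne (by omega)]
      rw [h3, h4]
      exact h1.2
    · -- the new layer
      rw [Function.update_self, Function.update_self]
      refine ⟨by omega, ?_⟩
      have h1 : ∑ u ∈ range s, (Function.update a s (R / D) u * (ld ℓ μ u 0 s : ℤ) +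
          (ld ℓ μ u (Function.update j s (D - ρ) u) s : ℤ)) =
          ∑ u ∈ range s, (a u * (ld ℓ μ u 0 s : ℤ) + (ld ℓ μ u (j u) s : ℤ)) := by
        refine sum_congr rfl fun u hu => ?_
        rw [mem_range] at hu
        rw [Function.update_of_ne (by omega), Function.update_of_ne (by omega)]
      have h2 : ∑ u ∈ range (s + 1), (Function.update a s (R / D) u + 1) =
          ∑ u ∈ range s, (a u + 1) + (R / D + 1) := by
        rw [sum_range_succ, Function.update_self]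
        congr 1
        refine sum_congr rfl fun u hu => ?_
        rw [mem_range] at hu
        rw [Function.update_of_ne (by omega)]
      rw [h1, h2]
      have h3 : ((μ - (D - ρ) : ℕ) : ℤ) = τ + ρ := by
        have : μ - (D - ρ) = τ + ρ := by omega
        rw [this]
        push_cast
        rfl
      have h4 := Int.emod_add_mul_ediv R D
      have h5 : (μ : ℤ) = D + τ := by
        have : μ = D + τ := by omega
        rw [this]
        push_cast
        omega
      rw [h3, hρ]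
      have h6 : R = c s - ∑ u ∈ range s, (a u * (ld ℓ μ u 0 s : ℤ) + (ld ℓ μ u (j u) s : ℤ)) -
        (n - ∑ u ∈ range s, (a u + 1)) * (τ : ℤ) := hR
      rw [h5]
      linear_combination (-1 : ℤ) * h4 + h6

/-- The greedy filling. -/
theorem greedy (μ ℓ : ℕ) (hμ : 1 ≤ μ) (hℓ : μ < ℓ) (c : ℕ → ℤ) (n : ℤ) :
    ∃ (a : ℕ → ℤ) (j : ℕ → ℕ), ∀ s < ℓ - 1, s + j s < ℓ ∧
      c s = ∑ u ∈ range (ℓ - 1), (a u * (ld ℓ μ u 0 s : ℤ) + (ld ℓ μ u (j u) s : ℤ)) +
        (n - ∑ u ∈ range (ℓ - 1), (a u + 1)) * (ld ℓ μ (ℓ - 1) 0 s : ℤ) := by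
  obtain ⟨a, j, haj⟩ := Greedy_aux μ ℓ hμ hℓ c n (ℓ - 1) le_rfl
  refine ⟨a, j, fun s hs => ⟨(haj s hs).1, ?_⟩⟩
  rw [(haj s hs).2]
  set τ : ℕ := μ - (ℓ - 1 - s) with hτ
  rw [Greedy_lt (show s < ℓ - 1 from hs)]
  obtain ⟨k, hk⟩ : ∃ k, ℓ - 1 = (s + 1) + k := ⟨ℓ - 1 - (s + 1), by omega⟩
  have h1 : ∑ u ∈ range (ℓ - 1), (a u * (ld ℓ μ u 0 s : ℤ) + (ld ℓ μ u (j u) s : ℤ)) =
      ∑ u ∈ range (s + 1), (a u * (ld ℓ μ u 0 s : ℤ) + (ld ℓ μ u (j u) s : ℤ)) +
      (∑ u ∈ range k, (a (s + 1 + u) + 1)) * (τ : ℤ) := by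
    rw [hk, sum_range_add, sum_mul]
    congr 1
    refine sum_congr rfl fun u _ => ?_
    rw [Greedy_lt (by omega), Greedy_lt (by omega), ← hτ]
    ring
  have h2 : ∑ u ∈ range (ℓ - 1), (a u + 1) =
      ∑ u ∈ range (s + 1), (a u + 1) + ∑ u ∈ range k, (a (s + 1 + u) + 1) := by
    rw [hk, sum_range_add]
  rw [h1, h2, sum_range_succ (fun u => a u * (ld ℓ μ u 0 s : ℤ) + (ld ℓ μ u (j u) s : ℤ)),
    Greedy_self, Greedy_self, Nat.sub_zero, ← hτ]
  ring

end Pool.Agent.H18.Ta
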