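import Pool.Agent.H18.Ta.PackOne

/-!
# Module PackMix (TA): exact packing of points of several multiplicities

Proof.  For `1 ≤ μ ≤ h` let `N₁` be larger than all the bounds of `pack_one` for `(μ, ℓ, 1)`.  Put
`B = 1 + ℓ * N₁ * h + …` (a bound for the variation and for the excess over the average of the vectors `v^μ`
below), `B₂ = E + h * B`, and let `N₂` be larger than all the bounds of `pack_one` for `(μ, ℓ, B₂)`; finally
`N = h * (N₂ + B₂)` (or larger).  Let `n μ` be the number of points of multiplicity `μ` in `G` and let `μ*` be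
the multiplicity for which `n μ * ell 2 μ` is largest, so that `n μ* * ell 2 μ* ≥ ∑ c / h ≥ ℓ N / h`.
For `μ ≠ μ*` define the vector `v^μ`:
* if `n μ * ell 2 μ ≥ ℓ * N₁`: `v^μ s = (n μ * ell 2 μ + s) / ℓ`, `s < ℓ`; its sum over `s < ℓ` is
  `n μ * ell 2 μ` (Hermite), two entries differ by at most `1`, all entries are `≥ N₁`: packed by `pack_one`;
* otherwise all points of multiplicity `μ` are put in the cell `(0, 0)`, `v^μ s = n μ * ld ℓ μ 0 0 s ≤ ℓ N₁ h`,
  sum `n μ * ell 2 μ` (`sum_ld`).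
The rest `c s - ∑_{μ ≠ μ*} v^μ s` has sum `n μ* * ell 2 μ*`, variation at most `B₂`, so it is at least
`n μ* ell 2 μ* / ℓ - B₂ ≥ N / h - B₂ ≥ N₂`: packed by `pack_one` for `(μ*, ℓ, B₂)`.
-/

namespace Pool.Agent.H18.Ta

open Finset Pool.Agent.H18.Ex

private theorem PackMix_map_sum {α β : Type} (I : Finset ℕ) (Q : ℕ → Multiset α) (f : α → β) :
    (∑ μ ∈ I, Q μ).map f = ∑ μ ∈ I, (Q μ).map f := by
  classical
  induction I using Finset.induction_on with
  | empty => simp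
  | insert a I ha ih => rw [Finset.sum_insert ha, Finset.sum_insert ha, Multiset.map_add, ih]

private theorem PackMix_sum_sum {α : Type} (I : Finset ℕ) (Q : ℕ → Multiset α) (f : α → ℕ) :
    ((∑ μ ∈ I, Q μ).map f).sum = ∑ μ ∈ I, ((Q μ).map f).sum := by
  classical
  induction I using Finset.induction_on with
  | empty => simp
  | insert a I ha ih =>
    rw [Finset.sum_insert ha, Finset.sum_insert ha, Multiset.map_add, Multiset.sum_add, ih]

private theorem PackMix_swap {ℓ : ℕ} (Q : Multiset (ℕ × ℕ)) (f : ℕ × ℕ → ℕ → ℕ) :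
    ∑ s ∈ range ℓ, (Q.map fun x => f x s).sum = (Q.map fun x => ∑ s ∈ range ℓ, f x s).sum := by
  induction Q using Multiset.induction_on with
  | empty => simp
  | cons a Q ih => simp only [Multiset.map_cons, Multiset.sum_cons, Finset.sum_add_distrib, ih]

/-- The total load. -/
private theorem PackMix_total {ℓ μ : ℕ} (hμ : μ ≤ ℓ) (Q : Multiset (ℕ × ℕ))
    (hQ : ∀ x ∈ Q, x.1 + x.2 < ℓ) :
    ∑ s ∈ range ℓ, (Q.map fun x => ld ℓ μ x.1 x.2 s).sum = Q.card * ell 2 μ := by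
  rw [PackMix_swap Q fun x s => ld ℓ μ x.1 x.2 s]
  rw [Multiset.map_congr rfl fun x hx => sum_ld (hQ x hx) hμ]
  rw [Multiset.map_const', Multiset.sum_replicate, smul_eq_mul]

private theorem PackMix_hermite (A ℓ : ℕ) (hℓ : 0 < ℓ) :
    ∑ s ∈ range ℓ, (A + s) / ℓ = A := by
  induction A with
  | zero =>
    refine Finset.sum_eq_zero fun s hs => ?_
    rw [zero_add]
    exact Nat.div_eq_of_lt (mem_range.1 hs)
  | succ A ih =>
    obtain ⟨k, rfl⟩ : ∃ k, ℓ = k + 1 := ⟨ℓ - 1, by omega⟩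
    rw [Finset.sum_range_succ']  at ih
    rw [Finset.sum_range_succ]
    have h1 : (A + 1 + k) / (k + 1) = A / (k + 1) + 1 := by
      rw [show A + 1 + k = A + (k + 1) by ring, Nat.add_div_right _ hℓ]
    have h2 : ∑ s ∈ range k, (A + 1 + s) / (k + 1) = ∑ s ∈ range k, (A + (s + 1)) / (k + 1) := by
      refine Finset.sum_congr rfl fun s _ => ?_
      rw [show A + 1 + s = A + (s + 1) by ring]
    rw [h1, h2]
    rw [add_zero] at ih
    omega

/-- Packing with bounded variation, one multiplicity. -/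
private theorem PackMix_small (ℓ μ : ℕ) (hμ : 1 ≤ μ) (hℓ : 2 * μ ≤ ℓ) :
    ∀ n : ℕ, ∃ Q : Multiset (ℕ × ℕ), Q.card = n ∧ (∀ x ∈ Q, x.1 + x.2 < ℓ) ∧
      ∀ s < ℓ, ∀ t < ℓ, (Q.map fun x => ld ℓ μ x.1 x.2 s).sum ≤
        (Q.map fun x => ld ℓ μ x.1 x.2 t).sum + (1 + ℓ * nOne ℓ 1) := by
  have hN := pack_one μ ℓ 1 hμ hℓ
  set N := nOne ℓ 1 with hNdef
  have hℓ0 : 0 < ℓ := by omega
  intro n
  by_cases h : ℓ * N ≤ n * ell 2 μ
  · obtain ⟨Q, h1, h2, h3⟩ := hN (fun s => (n * ell 2 μ + s) / ℓ) n (fun s _ => by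
        rw [Nat.le_div_iff_mul_le hℓ0, mul_comm]
        omega)
      (fun s hs t _ => by
        have e1 : (n * ell 2 μ + s) / ℓ ≤ (n * ell 2 μ + ℓ) / ℓ := Nat.div_le_div_right (by omega)
        rw [Nat.add_div_right _ hℓ0] at e1
        have e2 : n * ell 2 μ / ℓ ≤ (n * ell 2 μ + t) / ℓ := Nat.div_le_div_right (by omega)
        omega)
      (PackMix_hermite _ _ hℓ0)
    refine ⟨Q, h1, h2, fun s hs t ht => ?_⟩
    rw [h3 s hs, h3 t ht]
    have e1 : (n * ell 2 μ + s) / ℓ ≤ (n * ell 2 μ + ℓ) / ℓ := Nat.div_le_div_right (by omega)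
    rw [Nat.add_div_right _ hℓ0] at e1
    have e2 : n * ell 2 μ / ℓ ≤ (n * ell 2 μ + t) / ℓ := Nat.div_le_div_right (by omega)
    omega
  · push Not at h
    have hQ : ∀ x ∈ Multiset.replicate n ((0 : ℕ), (0 : ℕ)), x.1 + x.2 < ℓ := by
      intro x hx
      rw [Multiset.eq_of_mem_replicate hx]
      exact hℓ0
    refine ⟨Multiset.replicate n (0, 0), Multiset.card_replicate _ _, hQ, fun s hs t ht => ?_⟩
    have h1 := PackMix_total (μ := μ) (by omega) _ hQ
    rw [Multiset.card_replicate] at h1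
    have h2 := Finset.single_le_sum
      (f := fun s => ((Multiset.replicate n ((0 : ℕ), (0 : ℕ))).map
        fun x => ld ℓ μ x.1 x.2 s).sum) (fun i _ => Nat.zero_le _) (mem_range.2 hs)
    omega

/-- The variation of the small packings. -/
def bMix (ℓ h : ℕ) : ℕ := h * (1 + ℓ * nOne ℓ 1)

/-- The bound in `pack_mix`. -/
def nMix (ℓ h E : ℕ) : ℕ := h * (h * nOne ℓ (E + bMix ℓ h) + E + bMix ℓ h)

/-- Exact packing, several multiplicities. -/
theorem pack_mix (ℓ h E : ℕ) (h1 : 1 ≤ h) (hh : 2 * h ≤ ℓ) :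
    ∀ (c : ℕ → ℕ) (G : Multiset ℕ), (∀ m ∈ G, 1 ≤ m ∧ m ≤ h) →
      (∀ s < ℓ, nMix ℓ h E ≤ c s) → (∀ s < ℓ, ∀ t < ℓ, c s ≤ c t + E) →
      ∑ s ∈ range ℓ, c s = (G.map (ell 2)).sum →
      ∃ P : Multiset (ℕ × ℕ × ℕ), P.map Prod.fst = G ∧ (∀ x ∈ P, x.2.1 + x.2.2 < ℓ) ∧
        ∀ s < ℓ, (P.map fun x => ld ℓ x.1 x.2.1 x.2.2 s).sum = c s := by
  classical
  set B : ℕ → ℕ := fun _ => 1 + ℓ * nOne ℓ 1 with hBdef
  have hB : ∀ μ, 1 ≤ μ → μ ≤ h → ∀ n : ℕ, ∃ Q : Multiset (ℕ × ℕ), Q.card = n ∧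
      (∀ x ∈ Q, x.1 + x.2 < ℓ) ∧ ∀ s < ℓ, ∀ t < ℓ, (Q.map fun x => ld ℓ μ x.1 x.2 s).sum ≤
        (Q.map fun x => ld ℓ μ x.1 x.2 t).sum + B μ :=
    fun μ hμ1 hμ2 => PackMix_small ℓ μ hμ1 (by omega)
  set I : Finset ℕ := Finset.Icc 1 h with hI
  have hIcard : I.card = h := by rw [hI, Nat.card_Icc]; omega
  set B' : ℕ := ∑ μ ∈ I, B μ with hB'
  have hB'eq : B' = bMix ℓ h := by
    rw [hB', hBdef, Finset.sum_const, hIcard, smul_eq_mul]
    rfl
  set N₂ : ℕ → ℕ := fun _ => nOne ℓ (E + B') with hN₂def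
  have hN₂ : ∀ μ, 1 ≤ μ → μ ≤ h → ∀ (c : ℕ → ℕ) (n : ℕ), (∀ s < ℓ, N₂ μ ≤ c s) →
      (∀ s < ℓ, ∀ t < ℓ, c s ≤ c t + (E + B')) → ∑ s ∈ range ℓ, c s = n * ell 2 μ →
      ∃ P : Multiset (ℕ × ℕ), P.card = n ∧ (∀ x ∈ P, x.1 + x.2 < ℓ) ∧
        ∀ s < ℓ, (P.map fun x => ld ℓ μ x.1 x.2 s).sum = c s :=
    fun μ hμ1 hμ2 => pack_one μ ℓ (E + B') hμ1 (by omega)
  set N' : ℕ := ∑ μ ∈ I, N₂ μ with hN'
  have hN'eq : N' = h * nOne ℓ (E + bMix ℓ h) := by
    rw [hN', hN₂def, Finset.sum_const, hIcard, smul_eq_mul, hB'eq]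
  have hℓ0 : 0 < ℓ := by omega
  intro c G hG hc hv hs
  have hnm : nMix ℓ h E = h * (N' + E + B') := by
    rw [hN'eq, hB'eq]
    rfl
  rw [hnm] at hc
  have hGI : G.toFinset ⊆ I := by
    intro m hm
    rw [Multiset.mem_toFinset] at hm
    rw [hI, Finset.mem_Icc]
    exact hG m hm
  have hsum : (G.map (ell 2)).sum = ∑ μ ∈ I, G.count μ * ell 2 μ := by
    rw [Finset.sum_multiset_map_count]
    simp only [smul_eq_mul]
    refine Finset.sum_subset hGI fun m _ hm => ?_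
    rw [Multiset.mem_toFinset] at hm
    rw [Multiset.count_eq_zero_of_notMem hm, zero_mul]
  have hGsum : ∑ μ ∈ I, Multiset.replicate (G.count μ) μ = G := by
    ext a
    rw [Multiset.count_sum']
    simp only [Multiset.count_replicate]
    by_cases ha : a ∈ I
    · rw [Finset.sum_eq_single a]
      · simp
      · intro b _ hb
        rw [if_neg hb]
      · intro hna
        exact absurd ha hna
    · rw [Finset.sum_eq_zero, Multiset.count_eq_zero_of_notMem]
      · intro hm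
        exact ha (hGI (Multiset.mem_toFinset.2 hm))
      · intro b hb
        rw [if_neg]
        rintro rfl
        exact ha hb
  have hne : I.Nonempty := ⟨1, by rw [hI, Finset.mem_Icc]; omega⟩
  obtain ⟨μ', hμ'I, hμ'⟩ := Finset.exists_max_image I (fun μ => G.count μ * ell 2 μ) hne
  have hμ'2 := Finset.mem_Icc.1 (hI ▸ hμ'I)
  -- the small packings
  have hQ : ∀ μ, ∃ Q : Multiset (ℕ × ℕ), μ ∈ I → Q.card = G.count μ ∧
      (∀ x ∈ Q, x.1 + x.2 < ℓ) ∧ ∀ s < ℓ, ∀ t < ℓ, (Q.map fun x => ld ℓ μ x.1 x.2 s).sum ≤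
        (Q.map fun x => ld ℓ μ x.1 x.2 t).sum + B μ := by
    intro μ
    by_cases hμ : μ ∈ I
    · obtain ⟨Q, k⟩ := hB μ (Finset.mem_Icc.1 (hI ▸ hμ)).1 (Finset.mem_Icc.1 (hI ▸ hμ)).2
        (G.count μ)
      exact ⟨Q, fun _ => k⟩
    · exact ⟨0, fun k => absurd k hμ⟩
  choose Q hQ using hQ
  set L : ℕ → ℕ → ℕ := fun μ s => ((Q μ).map fun x => ld ℓ μ x.1 x.2 s).sum with hL
  set w : ℕ → ℕ := fun s => ∑ μ ∈ I.erase μ', L μ s with hw
  have hwv : ∀ s < ℓ, ∀ t < ℓ, w s ≤ w t + B' := by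
    intro s hs t ht
    have e1 : w s ≤ ∑ μ ∈ I.erase μ', (L μ t + B μ) :=
      Finset.sum_le_sum fun μ hμ => (hQ μ (Finset.mem_of_mem_erase hμ)).2.2 s hs t ht
    rw [Finset.sum_add_distrib] at e1
    have e2 : ∑ μ ∈ I.erase μ', B μ ≤ B' :=
      Finset.sum_le_sum_of_subset (Finset.erase_subset _ _)
    have e3 : w t = ∑ μ ∈ I.erase μ', L μ t := rfl
    omega
  have hLt : ∀ μ ∈ I, ∑ s ∈ range ℓ, L μ s = G.count μ * ell 2 μ := by
    intro μ hμ
    have k := hQ μ hμ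
    have k2 := Finset.mem_Icc.1 (hI ▸ hμ)
    rw [← k.1]
    exact PackMix_total (by omega) _ k.2.1
  have hwt : ∑ s ∈ range ℓ, w s = ∑ μ ∈ I.erase μ', G.count μ * ell 2 μ := by
    rw [hw, Finset.sum_comm]
    exact Finset.sum_congr rfl fun μ hμ => hLt μ (Finset.mem_of_mem_erase hμ)
  have htot : ∑ s ∈ range ℓ, c s = G.count μ' * ell 2 μ' + ∑ s ∈ range ℓ, w s := by
    rw [hs, hsum, hwt]
    exact (Finset.add_sum_erase I (fun μ => G.count μ * ell 2 μ) hμ'I).symm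
  have hbig : ℓ * (N' + E + B') ≤ G.count μ' * ell 2 μ' := by
    have e1 : ∑ μ ∈ I, G.count μ * ell 2 μ ≤ I.card • (G.count μ' * ell 2 μ') :=
      Finset.sum_le_card_nsmul _ _ _ hμ'
    have e2 : I.card = h := by rw [hI, Nat.card_Icc]; omega
    have e3 : ℓ * (h * (N' + E + B')) ≤ ∑ s ∈ range ℓ, c s := by
      have := Finset.card_nsmul_le_sum (range ℓ) c (h * (N' + E + B'))
        fun s hs => hc s (mem_range.1 hs)
      rwa [Finset.card_range, smul_eq_mul] at this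
    rw [hs, hsum] at e3
    rw [e2, smul_eq_mul] at e1
    have e4 : h * (ℓ * (N' + E + B')) ≤ h * (G.count μ' * ell 2 μ') := by
      calc h * (ℓ * (N' + E + B')) = ℓ * (h * (N' + E + B')) := by ring
        _ ≤ _ := e3.trans e1
    exact Nat.le_of_mul_le_mul_left e4 (by omega)
  -- the rest
  have hrest : ∀ t < ℓ, w t + N' ≤ c t := by
    intro t ht
    have e1 : ∑ s ∈ range ℓ, (c s + w t) ≤ ∑ s ∈ range ℓ, (c t + w s + (E + B')) := by
      refine Finset.sum_le_sum fun s hs => ?_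
      have k1 := hv s (mem_range.1 hs) t ht
      have k2 := hwv t ht s (mem_range.1 hs)
      omega
    rw [Finset.sum_add_distrib, Finset.sum_add_distrib, Finset.sum_add_distrib, Finset.sum_const,
      Finset.sum_const, Finset.sum_const, Finset.card_range, smul_eq_mul, smul_eq_mul,
      smul_eq_mul, htot] at e1
    have e2 : ℓ * (w t + N') ≤ ℓ * c t := by
      have e3 : ℓ * (N' + E + B') = ℓ * N' + ℓ * (E + B') := by ring
      rw [e3] at hbig
      rw [mul_add]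
      omega
    exact Nat.le_of_mul_le_mul_left e2 hℓ0
  obtain ⟨P', p1, p2, p3⟩ := hN₂ μ' hμ'2.1 hμ'2.2 (fun s => c s - w s) (G.count μ')
    (fun s hs => by
      have k1 := hrest s hs
      have k2 : N₂ μ' ≤ N' := Finset.single_le_sum (fun i _ => Nat.zero_le _) hμ'I
      omega)
    (fun s hs t ht => by
      have k1 := hrest s hs
      have k2 := hrest t ht
      have k3 := hv s hs t ht
      have k4 := hwv t ht s hs
      omega)
    (by
      have e1 : ∑ s ∈ range ℓ, (c s - w s) + ∑ s ∈ range ℓ, w s = ∑ s ∈ range ℓ, c s := by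
        rw [← Finset.sum_add_distrib]
        refine Finset.sum_congr rfl fun s hs => ?_
        have k1 := hrest s (mem_range.1 hs)
        omega
      omega)
  set R : ℕ → Multiset (ℕ × ℕ) := fun μ => if μ = μ' then P' else Q μ with hR
  have hRcard : ∀ μ ∈ I, (R μ).card = G.count μ := by
    intro μ hμ
    simp only [hR]
    by_cases e : μ = μ'
    · rw [if_pos e, p1, e]
    · rw [if_neg e]
      exact (hQ μ hμ).1
  have hRcell : ∀ μ ∈ I, ∀ x ∈ R μ, x.1 + x.2 < ℓ := by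
    intro μ hμ x hx
    simp only [hR] at hx
    by_cases e : μ = μ'
    · rw [if_pos e] at hx
      exact p2 x hx
    · rw [if_neg e] at hx
      exact (hQ μ hμ).2.1 x hx
  refine ⟨∑ μ ∈ I, (R μ).map fun x => (μ, x), ?_, ?_, ?_⟩
  · rw [PackMix_map_sum]
    conv_rhs => rw [← hGsum]
    refine Finset.sum_congr rfl fun μ hμ => ?_
    rw [Multiset.map_map]
    have e1 : (Prod.fst ∘ fun x : ℕ × ℕ => (μ, x)) = fun _ => μ := rfl
    rw [e1, Multiset.map_const', hRcard μ hμ]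
  · intro x hx
    rw [Multiset.mem_sum] at hx
    obtain ⟨μ, hμ, hx⟩ := hx
    rw [Multiset.mem_map] at hx
    obtain ⟨y, hy, rfl⟩ := hx
    exact hRcell μ hμ y hy
  · intro s hs'
    rw [PackMix_sum_sum]
    have e1 : ∀ μ ∈ I, (((R μ).map fun x => (μ, x)).map
        fun x => ld ℓ x.1 x.2.1 x.2.2 s).sum = if μ = μ' then c s - w s else L μ s := by
      intro μ hμ
      rw [Multiset.map_map]
      by_cases e : μ = μ'
      · rw [if_pos e]
        have := p3 s hs'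
        simp only [hR]
        rw [if_pos e, e]
        exact this
      · rw [if_neg e]
        simp only [hR]
        rw [if_neg e]
        rfl
    rw [Finset.sum_congr rfl e1, ← Finset.add_sum_erase _ _ hμ'I, if_pos rfl]
    have e2 : ∑ μ ∈ I.erase μ', (if μ = μ' then c s - w s else L μ s) = w s := by
      refine Finset.sum_congr rfl fun μ hμ => ?_
      rw [if_neg (Finset.ne_of_mem_erase hμ)]
    rw [e2]
    have := hrest s hs'
    omega

end Pool.Agent.H18.Ta
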