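import Pool.Agent.H18.Ta.PosE
import Pool.Agent.H18.Ta.Greedy

/-!
# Module PackOne (TA): exact packing of points of one multiplicity

Proof.  Apply `greedy` to `c` and `n`.  The identity also holds for the last layer `s = ℓ - 1`: the sum over all
layers `s < ℓ` of the right hand side is `∑_u (a u + 1) * ell 2 μ + (n - ∑_u (a u + 1)) * ell 2 μ = n * ell 2 μ`
by `sum_ld`, and this is `∑ c s`.  Put `x u = a u` for `u < ℓ - 1` and `x (ℓ - 1) = n - ∑ (a u + 1)`.
Then `∑_{u<ℓ} x u * ld ℓ μ u 0 s = c s - σ s` where `0 ≤ σ s = ∑_{u<ℓ-1} ld ℓ μ u (j u) s ≤ ℓ μ`.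
With `g = c 0`, `E = B + ℓ μ` we get `|∑_u x u ld - g| ≤ E`, so by `bnd` `x u ≥ δ c 0 - C E ≥ 0` as soon as
`c 0 ≥ N ≥ C E / δ`.  So the `a u` and the rest are natural numbers and
`P = ∑_{u<ℓ-1} (replicate (a u) (u, 0) + {(u, j u)}) + replicate (rest) (ℓ - 1, 0)`.
-/

namespace Pool.Agent.H18.Ta

open Finset Pool.Agent.H18.Ex

private theorem PackOne_multiset (K L r : ℕ) (a j : ℕ → ℕ) (hj : ∀ u < K, u + j u < L) (hL : K < L) :
    ∃ P : Multiset (ℕ × ℕ), P.card = ∑ u ∈ range K, (a u + 1) + r ∧ (∀ x ∈ P, x.1 + x.2 < L) ∧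
      ∀ f : ℕ × ℕ → ℕ, (P.map f).sum = ∑ u ∈ range K, (a u * f (u, 0) + f (u, j u)) + r * f (K, 0) := by
  refine ⟨∑ u ∈ range K, (Multiset.replicate (a u) (u, 0) + {(u, j u)}) +
    Multiset.replicate r (K, 0), ?_, ?_, ?_⟩
  · rw [Multiset.card_add, Multiset.card_sum, Multiset.card_replicate]
    congr 1
    refine sum_congr rfl fun u _ => ?_
    rw [Multiset.card_add, Multiset.card_replicate, Multiset.card_singleton]
  · intro x hx
    rcases Multiset.mem_add.1 hx with hx | hx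
    · obtain ⟨u, hu, hx⟩ := Multiset.mem_sum.1 hx
      have hu' := hj u (mem_range.1 hu)
      rcases Multiset.mem_add.1 hx with hx | hx
      · rw [Multiset.eq_of_mem_replicate hx]
        show u + 0 < L
        omega
      · rw [Multiset.mem_singleton.1 hx]
        exact hu'
    · rw [Multiset.eq_of_mem_replicate hx]
      exact hL
  · intro f
    have h : ∀ P : Multiset (ℕ × ℕ), (P.map f).sum =
        (Multiset.sumAddMonoidHom.comp (Multiset.mapAddMonoidHom f)) P := fun P => rfl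
    rw [h, map_add, map_sum, ← h]
    rw [Multiset.map_replicate, Multiset.sum_replicate, smul_eq_mul]
    congr 1
    refine sum_congr rfl fun u _ => ?_
    rw [← h, Multiset.map_add, Multiset.sum_add, Multiset.map_replicate, Multiset.sum_replicate,
      smul_eq_mul, Multiset.map_singleton, Multiset.sum_singleton]

/-- The bound in `pack_one`. -/
def nOne (ℓ B : ℕ) : ℕ := 4 * ℓ ^ 6 * (B + ℓ ^ 2)

/-- Exact packing, one multiplicity. -/
theorem pack_one (μ ℓ B : ℕ) (hμ : 1 ≤ μ) (hℓ : 2 * μ ≤ ℓ) :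
    ∀ (c : ℕ → ℕ) (n : ℕ), (∀ s < ℓ, nOne ℓ B ≤ c s) → (∀ s < ℓ, ∀ t < ℓ, c s ≤ c t + B) →
      ∑ s ∈ range ℓ, c s = n * ell 2 μ →
      ∃ P : Multiset (ℕ × ℕ), P.card = n ∧ (∀ x ∈ P, x.1 + x.2 < ℓ) ∧
        ∀ s < ℓ, (P.map fun x => ld ℓ μ x.1 x.2 s).sum = c s := by
  intro c n hN hB hsum
  obtain ⟨a, j, hg⟩ := greedy μ ℓ hμ (by omega) (fun s => (c s : ℤ)) n
  obtain ⟨L, rfl⟩ : ∃ L, ℓ = L + 1 := ⟨ℓ - 1, by omega⟩
  rw [Nat.add_sub_cancel] at hg
  set rest : ℤ := (n : ℤ) - ∑ u ∈ range L, (a u + 1) with hrest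
  have hμL : μ ≤ L + 1 := by omega
  have hall : ∀ s < L + 1, (c s : ℤ) = ∑ u ∈ range L, (a u * (ld (L + 1) μ u 0 s : ℤ) +
      (ld (L + 1) μ u (j u) s : ℤ)) + rest * (ld (L + 1) μ L 0 s : ℤ) := by
    intro s hs
    rcases Nat.lt_or_ge s L with h | h
    · exact (hg s h).2
    · obtain rfl : s = L := by omega
      have h2 : ∑ t ∈ range (s + 1), (∑ u ∈ range s, (a u * (ld (s + 1) μ u 0 t : ℤ) +
          (ld (s + 1) μ u (j u) t : ℤ)) + rest * (ld (s + 1) μ s 0 t : ℤ)) = n * ell 2 μ := by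
        rw [sum_add_distrib, sum_comm, ← mul_sum]
        have h3 : ∀ u ∈ range s, ∑ t ∈ range (s + 1), (a u * (ld (s + 1) μ u 0 t : ℤ) +
            (ld (s + 1) μ u (j u) t : ℤ)) = (a u + 1) * ell 2 μ := by
          intro u hu
          have hu' := mem_range.1 hu
          rw [sum_add_distrib, ← mul_sum, ← Nat.cast_sum, ← Nat.cast_sum,
            sum_ld (by omega) hμL, sum_ld (hg u hu').1 hμL]
          ring
        rw [sum_congr rfl h3, ← sum_mul, ← Nat.cast_sum, sum_ld (by omega) hμL, hrest]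
        ring
      have h4 : ∑ t ∈ range (s + 1), (c t : ℤ) = n * ell 2 μ := by
        rw [← Nat.cast_sum, hsum]
        push_cast
        rfl
      rw [← h4, sum_range_succ, sum_range_succ] at h2
      have h5 : ∑ t ∈ range s, (∑ u ∈ range s, (a u * (ld (s + 1) μ u 0 t : ℤ) +
          (ld (s + 1) μ u (j u) t : ℤ)) + rest * (ld (s + 1) μ s 0 t : ℤ)) =
          ∑ t ∈ range s, (c t : ℤ) :=
        sum_congr rfl fun t ht => ((hg t (mem_range.1 ht)).2).symm
      rw [h5] at h2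
      exact (add_left_cancel h2).symm
  have hx : ∀ s < L + 1, (0 : ℝ) ≤ (fun u : ℕ => if u < L then ((a u : ℤ) : ℝ) else (rest : ℝ)) s := by
    intro s hs
    refine le_trans ?_ (bndE μ (L + 1) hμ hℓ
      (fun u : ℕ => if u < L then ((a u : ℤ) : ℝ) else (rest : ℝ)) (c 0)
      ((B : ℝ) + (L + 1 : ℕ) * μ) (Nat.cast_nonneg _) (by positivity) ?_ s hs)
    · have h1 := hN 0 (Nat.succ_pos L)
      have h2 : ((nOne (L + 1) B : ℕ) : ℝ) ≤ (c 0 : ℝ) := by exact_mod_cast h1
      unfold nOne at h2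
      have hL0 : (0 : ℝ) < ((L + 1 : ℕ) : ℝ) := by positivity
      have h3 : (μ : ℝ) ≤ ((L + 1 : ℕ) : ℝ) := by exact_mod_cast hμL
      rw [Nat.cast_mul, Nat.cast_mul, Nat.cast_add, Nat.cast_pow, Nat.cast_pow] at h2
      set X : ℝ := ((L + 1 : ℕ) : ℝ) with hX
      have h4 : X * μ ≤ X ^ 2 := by nlinarith
      have h5 : 4 * X ^ 6 * ((B : ℝ) + X * μ) ≤ c 0 := by
        refine le_trans ?_ h2
        push_cast
        apply mul_le_mul_of_nonneg_left (by linarith) (by positivity)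
      rw [sub_nonneg, le_div_iff₀ (by positivity)]
      have h6 : 4 * X ^ 3 * ((B : ℝ) + X * μ) * X ^ 3 = 4 * X ^ 6 * ((B : ℝ) + X * μ) := by ring
      rw [h6]
      exact h5
    · intro t ht
      have h1 : ∑ u ∈ range (L + 1), (fun u : ℕ => if u < L then ((a u : ℤ) : ℝ) else (rest : ℝ)) u *
          (ld (L + 1) μ u 0 t : ℝ) = (c t : ℝ) - ∑ u ∈ range L, (ld (L + 1) μ u (j u) t : ℝ) := by
        rw [sum_range_succ]
        have h2 : ∑ u ∈ range L, (fun u : ℕ => if u < L then ((a u : ℤ) : ℝ) else (rest : ℝ)) u *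
            (ld (L + 1) μ u 0 t : ℝ) = ∑ u ∈ range L, ((a u : ℤ) : ℝ) * (ld (L + 1) μ u 0 t : ℝ) := by
          refine sum_congr rfl fun u hu => ?_
          simp only
          rw [if_pos (mem_range.1 hu)]
        rw [h2]
        simp only
        rw [if_neg (lt_irrefl L)]
        have h3 : (c t : ℝ) = ((c t : ℤ) : ℝ) := by push_cast; rfl
        rw [h3, hall t ht]
        push_cast
        rw [sum_add_distrib]
        ring
      rw [h1]
      have h4 : ∑ u ∈ range L, (ld (L + 1) μ u (j u) t : ℝ) ≤ (L + 1 : ℕ) * (μ : ℝ) := by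
        calc ∑ u ∈ range L, (ld (L + 1) μ u (j u) t : ℝ) ≤ ∑ u ∈ range L, (μ : ℝ) := by
              refine sum_le_sum fun u _ => ?_
              exact_mod_cast Nat.sub_le _ _
          _ = L * (μ : ℝ) := by rw [sum_const, card_range, nsmul_eq_mul]
          _ ≤ (L + 1 : ℕ) * (μ : ℝ) := by
              apply mul_le_mul_of_nonneg_right _ (Nat.cast_nonneg _)
              exact_mod_cast Nat.le_succ L
      have h5 : 0 ≤ ∑ u ∈ range L, (ld (L + 1) μ u (j u) t : ℝ) :=
        sum_nonneg fun u _ => Nat.cast_nonneg _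
      have h6 : (c t : ℝ) ≤ c 0 + B := by exact_mod_cast hB t ht 0 (Nat.succ_pos L)
      have h7 : (c 0 : ℝ) ≤ c t + B := by exact_mod_cast hB 0 (Nat.succ_pos L) t ht
      rw [abs_le]
      constructor <;> linarith
  have ha : ∀ u < L, 0 ≤ a u := by
    intro u hu
    have h1 := hx u (by omega)
    simp only at h1
    rw [if_pos hu] at h1
    exact_mod_cast h1
  have hr : 0 ≤ rest := by
    have h1 := hx L (Nat.lt_succ_self L)
    simp only at h1
    rw [if_neg (lt_irrefl L)] at h1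
    exact_mod_cast h1
  obtain ⟨P, h1, h2, h3⟩ := PackOne_multiset L (L + 1) rest.toNat (fun u => (a u).toNat) j
    (fun u hu => (hg u hu).1) (Nat.lt_succ_self L)
  have ha' : ∀ u ∈ range L, (((a u).toNat : ℕ) : ℤ) = a u := fun u hu =>
    Int.toNat_of_nonneg (ha u (mem_range.1 hu))
  have hr' : ((rest.toNat : ℕ) : ℤ) = rest := Int.toNat_of_nonneg hr
  refine ⟨P, ?_, h2, fun s hs => ?_⟩
  · rw [h1]
    have h4 : ((∑ u ∈ range L, ((a u).toNat + 1) + rest.toNat : ℕ) : ℤ) = n := by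
      rw [Nat.cast_add, Nat.cast_sum, hr']
      have h5 : ∑ u ∈ range L, (((a u).toNat + 1 : ℕ) : ℤ) = ∑ u ∈ range L, (a u + 1) := by
        refine sum_congr rfl fun u hu => ?_
        rw [Nat.cast_add, ha' u hu, Nat.cast_one]
      rw [h5, hrest]
      ring
    exact_mod_cast h4
  · rw [h3]
    have h4 : ((∑ u ∈ range L, ((a u).toNat * ld (L + 1) μ u 0 s + ld (L + 1) μ u (j u) s) +
        rest.toNat * ld (L + 1) μ L 0 s : ℕ) : ℤ) = c s := by
      rw [hall s hs, Nat.cast_add, Nat.cast_sum, Nat.cast_mul, hr']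
      congr 1
      refine sum_congr rfl fun u hu => ?_
      rw [Nat.cast_add, Nat.cast_mul, ha' u hu]
    exact_mod_cast h4

end Pool.Agent.H18.Ta
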