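import Pool.Agent.H18.Ta.Rk

/-!
# Module Pos (TA): positivity of the solution of the load equations

`x u` points are put in the cell `(u, 0)`, `u < ℓ`, and all layers get the same load `g ≥ 0`.  Then all
`x u ≥ 0`, and `x u > 0` if `g > 0`.
-/

namespace Pool.Agent.H18.Ta

open Finset

private theorem Pos_ld {ℓ μ u s : ℕ} :
    ld ℓ μ u 0 s = if s < u then μ - (ℓ - 1 - s) else μ - (s - u) := by
  unfold ld rk
  split_ifs <;> omega

/-- Positivity. -/
theorem pos_aux (μ ℓ : ℕ) (hμ : 1 ≤ μ) (hℓ : 2 * μ ≤ ℓ) (x : ℕ → ℝ) (g : ℝ) (hg : 0 ≤ g)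
    (h : ∀ s < ℓ, ∑ u ∈ range ℓ, x u * (ld ℓ μ u 0 s : ℝ) = g) :
    ∀ s < ℓ, 0 ≤ x s ∧ (0 < g → 0 < x s) := by
  set τ : ℕ → ℕ := fun s => μ - (ℓ - 1 - s) with hτ
  set F : ℕ → ℝ := fun s => ∑ u ∈ Ico s ℓ, x u with hF
  set W : ℕ → ℝ := fun s => ∑ u ∈ Ico (s - μ) s, x u with hW
  -- the equations
  have hE : ∀ s < ℓ, ∑ u ∈ range (s + 1), x u * ((μ - (s - u) : ℕ) : ℝ) +
      (τ s : ℝ) * F (s + 1) = g := by
    intro s hs
    rw [← h s hs, range_eq_Ico, range_eq_Ico, ← sum_Ico_consecutive _ (Nat.zero_le (s + 1))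
      (by omega : s + 1 ≤ ℓ)]
    congr 1
    · refine sum_congr rfl fun u hu => ?_
      rw [mem_Ico] at hu
      rw [Pos_ld, if_neg (by omega)]
    · rw [hF]
      simp only
      rw [mul_sum]
      refine sum_congr rfl fun u hu => ?_
      rw [mem_Ico] at hu
      rw [Pos_ld, if_pos (by omega)]
      ring
  -- the differences
  have hWsum : ∀ s, ∑ u ∈ range (s + 1), x u * ((μ - (s - u) : ℕ) : ℝ) -
      ∑ u ∈ range (s + 1), x u * ((μ - (s + 1 - u) : ℕ) : ℝ) = W (s + 1) := by
    intro s
    rw [← sum_sub_distrib, range_eq_Ico,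
      ← sum_Ico_consecutive _ (Nat.zero_le (s + 1 - μ)) (by omega : s + 1 - μ ≤ s + 1)]
    have h1 : ∑ u ∈ Ico 0 (s + 1 - μ), (x u * ((μ - (s - u) : ℕ) : ℝ) -
        x u * ((μ - (s + 1 - u) : ℕ) : ℝ)) = 0 := by
      refine sum_eq_zero fun u hu => ?_
      rw [mem_Ico] at hu
      rw [show μ - (s - u) = 0 by omega, show μ - (s + 1 - u) = 0 by omega]
      simp
    rw [h1, zero_add]
    refine sum_congr rfl fun u hu => ?_
    rw [mem_Ico] at hu
    rw [show μ - (s - u) = μ - (s + 1 - u) + 1 by omega]
    push_cast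
    ring
  have hD : ∀ s, s + 1 < ℓ → (μ : ℝ) * x (s + 1) - W (s + 1) + (τ (s + 1) : ℝ) * F (s + 2) -
      (τ s : ℝ) * F (s + 1) = 0 := by
    intro s hs
    have h1 := hE s (by omega)
    have h2 := hE (s + 1) hs
    rw [sum_range_succ, Nat.sub_self, Nat.sub_zero] at h2
    have h3 := hWsum s
    rw [show s + 1 + 1 = s + 2 from rfl] at h2
    linear_combination h2 - h1 + h3
  have hFs : ∀ s < ℓ, F s = x s + F (s + 1) := by
    intro s hs
    rw [hF]
    simp only
    rw [sum_eq_sum_Ico_succ_bot hs]
  have hWs : ∀ s, μ ≤ s → W (s + 1) + x (s - μ) = W s + x s := by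
    intro s hs
    rw [hW]
    simp only
    rw [sum_Ico_succ_top (by omega : s + 1 - μ ≤ s), sum_eq_sum_Ico_succ_bot (by omega : s - μ < s),
      show s - μ + 1 = s + 1 - μ by omega]
    ring
  have hμ0 : (0 : ℝ) < μ := by exact_mod_cast hμ
  -- first phase
  have hP1 : ∀ s, s < ℓ - μ → 0 ≤ x s ∧ (0 < g → 0 < x s) := by
    intro s
    induction s using Nat.strong_induction_on with
    | _ s ih =>
      intro hs
      rcases Nat.eq_zero_or_pos s with rfl | hs0
      · have h1 := hE 0 (by omega)
        rw [sum_range_one, Nat.sub_self, Nat.sub_zero] at h1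
        have h2 : τ 0 = 0 := by
          simp only [hτ]
          omega
        rw [h2, Nat.cast_zero, zero_mul, add_zero] at h1
        constructor
        · by_contra hn
          push Not at hn
          nlinarith
        · intro hg'
          by_contra hn
          push Not at hn
          nlinarith
      · obtain ⟨s, rfl⟩ : ∃ s', s = s' + 1 := ⟨s - 1, by omega⟩
        have h1 := hD s (by omega)
        have h2 : τ s = 0 := by
          simp only [hτ]
          omega
        have h3 : τ (s + 1) = 0 := by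
          simp only [hτ]
          omega
        rw [h2, h3, Nat.cast_zero, zero_mul, zero_mul, add_zero, sub_zero] at h1
        have h4 : x s ≤ W (s + 1) := by
          rw [hW]
          simp only
          refine single_le_sum (f := x) (fun u hu => ?_) ?_
          · rw [mem_Ico] at hu
            exact (ih u (by omega) (by omega)).1
          · rw [mem_Ico]
            omega
        have h5 := ih s (by omega) (by omega)
        have h6 : (μ : ℝ) * x (s + 1) = W (s + 1) := by linarith
        constructor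
        · by_contra hn
          push Not at hn
          nlinarith [h5.1]
        · intro hg'
          by_contra hn
          push Not at hn
          nlinarith [h5.2 hg']
  -- second phase
  set A : ℕ → ℝ := fun t => W (ℓ - μ + t) - F (ℓ - μ + t) with hA
  have hA1 : ∀ t, t < μ → ((μ - t - 1 : ℕ) : ℝ) * x (ℓ - μ + t) = A t := by
    intro t ht
    obtain ⟨s, hs⟩ : ∃ s, ℓ - μ + t = s + 1 := ⟨ℓ - μ + t - 1, by omega⟩
    have h1 := hD s (by omega)
    have h2 : τ s = t := by
      simp only [hτ]
      omega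
    have h3 : τ (s + 1) = t + 1 := by
      simp only [hτ]
      omega
    have h4 := hFs (s + 1) (by omega)
    rw [h2, h3] at h1
    have h5 : ((μ - t - 1 : ℕ) : ℝ) = (μ : ℝ) - t - 1 := by
      rw [Nat.sub_sub, Nat.cast_sub (by omega)]
      push_cast
      ring
    rw [hA]
    simp only
    rw [hs, h5]
    push_cast at h1
    rw [show s + 2 = s + 1 + 1 from rfl] at h1
    linear_combination h1 + (t + 1 : ℝ) * h4
  have hA2 : ∀ t, t + 1 < μ → A (t + 1) + x (ℓ - μ + t - μ) = A t + 2 * x (ℓ - μ + t) := by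
    intro t ht
    have h1 := hWs (ℓ - μ + t) (by omega)
    have h2 := hFs (ℓ - μ + t) (by omega)
    rw [hA]
    simp only
    rw [show ℓ - μ + (t + 1) = ℓ - μ + t + 1 by omega]
    linear_combination h1 + h2
  have hA3 : ∀ k, k < μ → 0 ≤ A (μ - 1 - k) ∧ (1 ≤ k → 0 < g → 0 < A (μ - 1 - k)) := by
    intro k
    induction k with
    | zero =>
      intro _
      have h1 := hA1 (μ - 1) (by omega)
      rw [show μ - (μ - 1) - 1 = 0 by omega, Nat.cast_zero, zero_mul] at h1
      rw [Nat.sub_zero]
      exact ⟨le_of_eq h1, fun h => absurd h (by norm_num)⟩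
    | succ k ih =>
      intro hk
      have ih' := (ih (by omega)).1
      obtain ⟨t, ht⟩ : ∃ t, μ - 1 - (k + 1) = t := ⟨_, rfl⟩
      have ht1 : μ - 1 - k = t + 1 := by omega
      rw [ht1] at ih'
      rw [ht]
      have h1 := hA1 t (by omega)
      have h2 := hA2 t (by omega)
      have h3 := hP1 (ℓ - μ + t - μ) (by omega)
      have h4 : (0 : ℝ) < ((μ - t - 1 : ℕ) : ℝ) := by
        have : 0 < μ - t - 1 := by omega
        exact_mod_cast this
      have h5 : (((μ - t - 1 : ℕ) : ℝ) + 2) * A t =
          ((μ - t - 1 : ℕ) : ℝ) * (A (t + 1) + x (ℓ - μ + t - μ)) := by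
        rw [h2]
        linear_combination (-2 : ℝ) * h1
      constructor
      · by_contra hn
        push Not at hn
        have h6 : 0 ≤ ((μ - t - 1 : ℕ) : ℝ) * (A (t + 1) + x (ℓ - μ + t - μ)) :=
          mul_nonneg h4.le (add_nonneg ih' h3.1)
        nlinarith
      · intro _ hg'
        by_contra hn
        push Not at hn
        have h6 : 0 < ((μ - t - 1 : ℕ) : ℝ) * (A (t + 1) + x (ℓ - μ + t - μ)) :=
          mul_pos h4 (add_pos_of_nonneg_of_pos ih' (h3.2 hg'))
        nlinarith
  have hP2 : ∀ s, s + 1 < ℓ → 0 ≤ x s ∧ (0 < g → 0 < x s) := by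
    intro s hs
    rcases Nat.lt_or_ge s (ℓ - μ) with h1 | h1
    · exact hP1 s h1
    · obtain ⟨t, rfl⟩ := Nat.exists_eq_add_of_le h1
      have h2 := hA1 t (by omega)
      have h3 := hA3 (μ - 1 - t) (by omega)
      rw [show μ - 1 - (μ - 1 - t) = t by omega] at h3
      have h4 : (0 : ℝ) < ((μ - t - 1 : ℕ) : ℝ) := by
        have : 0 < μ - t - 1 := by omega
        exact_mod_cast this
      constructor
      · by_contra hn
        push Not at hn
        nlinarith [h3.1]
      · intro hg'
        by_contra hn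
        push Not at hn
        nlinarith [h3.2 (by omega) hg']
  -- the last layer
  intro s hs
  rcases Nat.lt_or_ge (s + 1) ℓ with h1 | h1
  · exact hP2 s h1
  · have hs' : s = ℓ - 1 := by omega
    have h2 := hA1 (μ - 1) (by omega)
    rw [show μ - (μ - 1) - 1 = 0 by omega, Nat.cast_zero, zero_mul] at h2
    rw [hA] at h2
    simp only at h2
    rw [show ℓ - μ + (μ - 1) = s by omega] at h2
    have h3 : F s = x s := by
      rw [hFs s hs, hF]
      simp only
      rw [Ico_eq_empty_of_le (by omega), sum_empty, add_zero]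
    have h4 : x (s - 1) ≤ W s := by
      rw [hW]
      simp only
      refine single_le_sum (f := x) (fun u hu => ?_) ?_
      · rw [mem_Ico] at hu
        exact (hP2 u (by omega)).1
      · rw [mem_Ico]
        omega
    have h5 := hP2 (s - 1) (by omega)
    constructor
    · linarith [h5.1]
    · intro hg'
      linarith [h5.2 hg']

end Pool.Agent.H18.Ta
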