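import Pool.Agent.H18.Ta.Defs

/-!
# Module Rk (TA): the ranks are a permutation of the layers
-/

namespace Pool.Agent.H18.Ta

open Finset Pool.Agent.H18.Ex

theorem rk_lt {ℓ u j s : ℕ} (h : u + j < ℓ) (hs : s < ℓ) : rk ℓ u j s < ℓ := by
  unfold rk
  split_ifs <;> omega

theorem rk_inj {ℓ u j : ℕ} (h : u + j < ℓ) {s t : ℕ} (hs : s < ℓ) (ht : t < ℓ)
    (he : rk ℓ u j s = rk ℓ u j t) : s = t := by
  unfold rk at he
  split_ifs at he <;> omega

private theorem Rk_ell (μ : ℕ) : ∀ ℓ, μ ≤ ℓ → ∑ k ∈ range ℓ, (μ - k) = ell 2 μ := by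
  intro ℓ hℓ
  have h1 : ∑ k ∈ range ℓ, (μ - k) = ∑ k ∈ range μ, (μ - k) := by
    symm
    apply sum_subset (range_subset_range.2 hℓ)
    intro k _ hk
    rw [mem_range, not_lt] at hk
    omega
  rw [h1]
  clear h1 hℓ
  induction μ with
  | zero => rfl
  | succ μ ih =>
    rw [sum_range_succ', Nat.sub_zero]
    have h2 : ∑ k ∈ range μ, (μ + 1 - (k + 1)) = ∑ k ∈ range μ, (μ - k) :=
      sum_congr rfl fun k _ => by omega
    rw [h2, ih]
    unfold ell
    have h3 : (μ + 1 + 2 - 1).choose 2 = (μ + 1).choose 1 + (μ + 1).choose 2 := by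
      rw [show μ + 1 + 2 - 1 = (μ + 1) + 1 by omega]
      exact Nat.choose_succ_succ _ _
    rw [h3, Nat.choose_one_right, show μ + 2 - 1 = μ + 1 by omega]
    omega

theorem sum_ld {ℓ μ u j : ℕ} (h : u + j < ℓ) (hμ : μ ≤ ℓ) :
    ∑ s ∈ range ℓ, ld ℓ μ u j s = ell 2 μ := by
  rw [← Rk_ell μ ℓ hμ]
  unfold ld
  have hinj : Set.InjOn (rk ℓ u j) (range ℓ : Finset ℕ) := by
    intro s hs t ht he
    exact rk_inj h (mem_range.1 hs) (mem_range.1 ht) he
  have himg : (range ℓ).image (rk ℓ u j) = range ℓ := by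
    apply eq_of_subset_of_card_le
    · intro k hk
      obtain ⟨s, hs, rfl⟩ := mem_image.1 hk
      exact mem_range.2 (rk_lt h (mem_range.1 hs))
    · rw [card_image_of_injOn hinj]
  conv_rhs => rw [← himg, sum_image hinj]

end Pool.Agent.H18.Ta
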